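import Mathlib
import Pool.Agent.W545.Man.Chart
import Pool.Agent.W545.Man.HalfBall
set_option autoImplicit false
open Set Filter Topology MeasureTheory Metric
open scoped ENNReal Manifold ContDiff

namespace Pool.Agent.W749.ST
open Pool.Agent.W545.Man

variable {d : ℕ} {Ω : Type*} [TopologicalSpace Ω] [ChartedSpace (EuclideanHalfSpace (d + 1)) Ω]
  [IsManifold (𝓡∂ (d + 1)) ∞ Ω]

theorem inj_cont (d : ℕ) : Continuous (inj : FF d → EE d) := (injL d).continuous

theorem inj_tail {y : EE d} (hy : y 0 = 0) : inj (tailL d y) = y := by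
  ext i
  refine Fin.cases ?_ (fun j => ?_) i
  · rw [hy]; rfl
  · rfl

theorem tail_ball {y : EE d} (hy : y 0 = 0) {x : FF d} {r : ℝ} :
    y ∈ closedBall (inj x) r ↔ tailL d y ∈ closedBall x r := by
  rw [mem_closedBall, mem_closedBall, dist_eq_norm, dist_eq_norm]
  conv_lhs => rw [← inj_tail hy]
  rw [inj_sub, norm_inj]

/-- the boundary measure of the part `K` of the chart at `c`, on `ℝ^d` -/
noncomputable def mF (g : RMetric d Ω) (c : Ω) (K : Set (EE d)) : Measure (FF d) :=
  (volume.restrict {z | inj z ∈ K}).withDensity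
    fun z => ENNReal.ofReal (√(bgram g c ((ph d c).symm (inj z))).det)

variable [MeasurableSpace Ω] [BorelSpace Ω]

theorem mF_apply {g : RMetric d Ω} {ν : Measure Ω} (hν : IsBdryVolume g ν) (c : Ω) {K : Set (EE d)}
    (hK : IsCompact K) (hKt : K ⊆ (ph d c).target) {A : Set (FF d)} (hA : MeasurableSet A) :
    ∫⁻ x in (chartAt (EuclideanHalfSpace (d + 1)) c).source,
      {y | y ∈ K ∧ y 0 = 0 ∧ tailL d y ∈ A}.indicator 1 (ph d c x) ∂ν = mF g c K A := by
  have hm1 : MeasurableSet {y : EE d | y 0 = 0} := by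
    have : Continuous fun y : EE d => y 0 := by fun_prop
    exact (isClosed_eq this continuous_const).measurableSet
  have hm2 : MeasurableSet {y : EE d | tailL d y ∈ A} := (tailL d).continuous.measurable hA
  have hm : MeasurableSet {y : EE d | y ∈ K ∧ y 0 = 0 ∧ tailL d y ∈ A} :=
    hK.measurableSet.inter (hm1.inter hm2)
  have hKi : MeasurableSet {z : FF d | inj z ∈ K} := (inj_cont d).measurable hK.measurableSet
  rw [hν c _ (measurable_one.indicator hm), mF, withDensity_apply _ hA, Measure.restrict_restrict hA]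
  have e : (fun z : FF d => {y : EE d | y ∈ K ∧ y 0 = 0 ∧ tailL d y ∈ A}.indicator 1 (inj z) *
      ENNReal.ofReal (√(bgram g c ((extChartAt (𝓡∂ (d + 1)) c).symm (inj z))).det)) =
      (A ∩ {z : FF d | inj z ∈ K}).indicator fun z =>
        ENNReal.ofReal (√(bgram g c ((ph d c).symm (inj z))).det) := by
    funext z
    by_cases hz : z ∈ A ∩ {z : FF d | inj z ∈ K}
    · have hz' : inj z ∈ {y : EE d | y ∈ K ∧ y 0 = 0 ∧ tailL d y ∈ A} :=
        ⟨hz.2, inj_zero_coord z, by rw [← injL_apply, tail_inj]; exact hz.1⟩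
      rw [indicator_of_mem hz, indicator_of_mem hz', Pi.one_apply, one_mul]
    · have hz' : inj z ∉ {y : EE d | y ∈ K ∧ y 0 = 0 ∧ tailL d y ∈ A} := by
        intro h
        apply hz
        have := h.2.2
        rw [← injL_apply, tail_inj] at this
        exact ⟨this, h.1⟩
      rw [indicator_of_notMem hz, indicator_of_notMem hz', zero_mul]
  rw [e, lintegral_indicator (hA.inter hKi), Measure.restrict_restrict (hA.inter hKi)]
  congr 2
  apply inter_eq_self_of_subset_left
  intro z hz
  exact hKt hz.2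

/-- lower bound for the boundary integral -/
theorem bsq_lower {g : RMetric d Ω} {ν : Measure Ω} (hν : IsBdryVolume g ν) (c : Ω) {K : Set (EE d)}
    (hK : IsCompact K) (hKt : K ⊆ (ph d c).target) {A : Set (FF d)} (hA : MeasurableSet A)
    {u : Ω → ℝ} (hu : ∀ x, x ∈ (ph d c).source → ph d c x ∈ K → ph d c x 0 = 0 →
      tailL d (ph d c x) ∈ A → u x = 1) : mF g c K A ≤ bsq ν u := by
  rw [← mF_apply hν c hK hKt hA]
  unfold bsq
  rw [← lintegral_indicator (chartAt (EuclideanHalfSpace (d + 1)) c).open_source.measurableSet]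
  apply lintegral_mono
  intro x
  by_cases hx : x ∈ (chartAt (EuclideanHalfSpace (d + 1)) c).source
  · by_cases h2 : ph d c x ∈ {y | y ∈ K ∧ y 0 = 0 ∧ tailL d y ∈ A}
    · simp only
      rw [indicator_of_mem hx, indicator_of_mem h2, hu x (by rwa [extChartAt_source]) h2.1 h2.2.1 h2.2.2]
      simp
    · simp only
      rw [indicator_of_mem hx, indicator_of_notMem h2]
      exact zero_le
  · simp only
    rw [indicator_of_notMem hx]
    exact zero_le

theorem mF_univ [T2Space Ω] {g : RMetric d Ω} {ν : Measure Ω} (hν : IsBdryVolume g ν) (c : Ω)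
    {K : Set (EE d)} (hK : IsCompact K) (hKt : K ⊆ (ph d c).target) :
    ν ((ph d c).symm '' K) ≤ mF g c K univ := by
  have hP : IsCompact ((ph d c).symm '' K) :=
    hK.image_of_continuousOn ((continuousOn_extChartAt_symm c).mono hKt)
  have hPm : MeasurableSet ((ph d c).symm '' K) := hP.isClosed.measurableSet
  have hKi : MeasurableSet {z : FF d | inj z ∈ K} := (inj_cont d).measurable hK.measurableSet
  have h1 := hν c (K.indicator 1) (measurable_one.indicator hK.measurableSet)
  have e : (fun z : FF d => K.indicator 1 (inj z) *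
      ENNReal.ofReal (√(bgram g c ((extChartAt (𝓡∂ (d + 1)) c).symm (inj z))).det)) =
      {z : FF d | inj z ∈ K}.indicator fun z =>
        ENNReal.ofReal (√(bgram g c ((ph d c).symm (inj z))).det) := by
    funext z
    by_cases hz : inj z ∈ K
    · have hz' : z ∈ {z : FF d | inj z ∈ K} := hz
      rw [indicator_of_mem hz, indicator_of_mem hz', Pi.one_apply, one_mul]
    · have hz' : z ∉ {z : FF d | inj z ∈ K} := hz
      rw [indicator_of_notMem hz, indicator_of_notMem hz', zero_mul]
  have e2 : {z : FF d | inj z ∈ K} ∩ {z : FF d | inj z ∈ (extChartAt (𝓡∂ (d + 1)) c).target} =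
      {z : FF d | inj z ∈ K} := inter_eq_self_of_subset_left fun z hz => hKt hz
  rw [e, lintegral_indicator hKi, Measure.restrict_restrict hKi, e2] at h1
  have h2 : mF g c K univ = ∫⁻ z in {z : FF d | inj z ∈ K},
      ENNReal.ofReal (√(bgram g c ((ph d c).symm (inj z))).det) := by
    rw [mF, withDensity_apply _ MeasurableSet.univ, Measure.restrict_univ]
  rw [h2, ← h1, ← lintegral_indicator_one hPm,
    ← lintegral_indicator (chartAt (EuclideanHalfSpace (d + 1)) c).open_source.measurableSet]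
  apply lintegral_mono
  intro x
  by_cases hx : x ∈ (ph d c).symm '' K
  · obtain ⟨y, hy, rfl⟩ := hx
    have hs : (ph d c).symm y ∈ (chartAt (EuclideanHalfSpace (d + 1)) c).source := by
      rw [← extChartAt_source (𝓡∂ (d + 1)) c]
      exact (ph d c).map_target (hKt hy)
    have hr : ph d c ((ph d c).symm y) = y := (ph d c).right_inv (hKt hy)
    simp only
    rw [indicator_of_mem (mem_image_of_mem _ hy), indicator_of_mem hs, hr, indicator_of_mem hy]
    simp
  · simp only
    rw [indicator_of_notMem hx]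
    exact zero_le

omit [MeasurableSpace Ω] [BorelSpace Ω] in
theorem mF_bound (g : RMetric d Ω) (c : Ω) {K : Set (EE d)}
    (hK : IsCompact K) (hKt : K ⊆ (ph d c).target) : ∃ b : ℝ≥0∞, b ≠ ⊤ ∧ ∀ A : Set (FF d),
      MeasurableSet A → mF g c K A ≤ b * volume (A ∩ {z | inj z ∈ K}) := by
  obtain ⟨_, b, _, hb, hdet⟩ := bdet_bounds g c hK hKt
  have hKi : MeasurableSet {z : FF d | inj z ∈ K} := (inj_cont d).measurable hK.measurableSet
  refine ⟨ENNReal.ofReal b, ENNReal.ofReal_ne_top, fun A hA => ?_⟩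
  rw [mF, withDensity_apply _ hA, Measure.restrict_restrict hA, ← setLIntegral_const]
  apply lintegral_mono_ae
  filter_upwards [ae_restrict_mem (hA.inter hKi)] with z hz
  exact ENNReal.ofReal_le_ofReal (hdet _ hz.2).2

theorem bdd_inj {K : Set (EE d)} (hK : IsCompact K) : ∃ R : ℝ, 0 < R ∧
    {z : FF d | inj z ∈ K} ⊆ closedBall 0 R := by
  obtain ⟨R, hR⟩ := hK.isBounded.subset_closedBall 0
  refine ⟨max R 1, lt_max_of_lt_right one_pos, fun z hz => ?_⟩
  have := hR hz
  rw [mem_closedBall, dist_eq_norm, sub_zero, norm_inj] at this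
  rw [mem_closedBall, dist_eq_norm, sub_zero]
  exact this.trans (le_max_left _ _)

omit [MeasurableSpace Ω] [BorelSpace Ω] in
theorem mF_finite (g : RMetric d Ω) (c : Ω) {K : Set (EE d)}
    (hK : IsCompact K) (hKt : K ⊆ (ph d c).target) : IsFiniteMeasure (mF g c K) := by
  obtain ⟨b, hb, h⟩ := mF_bound g c hK hKt
  obtain ⟨R, _, hR⟩ := bdd_inj hK
  refine ⟨(h univ MeasurableSet.univ).trans_lt ?_⟩
  apply ENNReal.mul_lt_top hb.lt_top
  exact (measure_mono (inter_subset_right.trans hR)).trans_lt measure_closedBall_lt_top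

omit [MeasurableSpace Ω] [BorelSpace Ω] in
theorem mF_small (hd : 1 ≤ d) (g : RMetric d Ω) (c : Ω) {K : Set (EE d)}
    (hK : IsCompact K) (hKt : K ⊆ (ph d c).target) (ε : ℝ≥0∞) (hε : 0 < ε) :
    ∃ δ : ℝ, 0 < δ ∧ ∀ x, mF g c K (closedBall x δ) < ε := by
  obtain ⟨b, hb, h⟩ := mF_bound g c hK hKt
  have hb1 : ∀ (x : FF d) (δ : ℝ), 0 ≤ δ → mF g c K (closedBall x δ) ≤
      b * (ENNReal.ofReal (δ ^ d) * volume (ball (0 : FF d) 1)) := by
    intro x δ hδ
    refine (h _ isClosed_closedBall.measurableSet).trans ?_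
    gcongr
    refine (measure_mono inter_subset_left).trans ?_
    rw [Measure.addHaar_closedBall _ _ hδ, finrank_euclideanSpace_fin]
  have hlim : Tendsto (fun δ : ℝ => b * (ENNReal.ofReal (δ ^ d) * volume (ball (0 : FF d) 1)))
      (𝓝[>] 0) (𝓝 0) := by
    have h1 : Tendsto (fun δ : ℝ => ENNReal.ofReal (δ ^ d)) (𝓝[>] 0) (𝓝 0) := by
      have : Tendsto (fun δ : ℝ => ENNReal.ofReal (δ ^ d)) (𝓝 0) (𝓝 (ENNReal.ofReal (0 ^ d))) :=
        (ENNReal.continuous_ofReal.comp (continuous_pow d)).tendsto 0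
      rw [zero_pow (by omega), ENNReal.ofReal_zero] at this
      exact this.mono_left nhdsWithin_le_nhds
    have h2 := ENNReal.Tendsto.mul_const (b := volume (ball (0 : FF d) 1)) h1
      (Or.inr measure_ball_lt_top.ne)
    have h3 := ENNReal.Tendsto.const_mul (a := b) h2 (Or.inr hb)
    simpa using h3
  obtain ⟨δ, hδ1, hδ2⟩ := ((hlim.eventually (gt_mem_nhds hε)).and self_mem_nhdsWithin).exists
  exact ⟨δ, hδ2, fun x => (hb1 x δ (le_of_lt hδ2)).trans_lt hδ1⟩

omit [MeasurableSpace Ω] [BorelSpace Ω] in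
theorem mF_supp (g : RMetric d Ω) (c : Ω) {K : Set (EE d)}
    (hK : IsCompact K) (hKt : K ⊆ (ph d c).target) {R : ℝ}
    (hR : {z : FF d | inj z ∈ K} ⊆ closedBall 0 R) : mF g c K (closedBall 0 R)ᶜ = 0 := by
  obtain ⟨b, hb, h⟩ := mF_bound g c hK hKt
  have h1 := h _ (isClosed_closedBall (x := (0 : FF d)) (ε := R)).measurableSet.compl
  have e : (closedBall (0 : FF d) R)ᶜ ∩ {z | inj z ∈ K} = ∅ := by
    ext z
    simp only [mem_inter_iff, mem_compl_iff, mem_empty_iff_false, iff_false, not_and]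
    intro hz hz2
    exact hz (hR hz2)
  rw [e, measure_empty, mul_zero] at h1
  exact le_antisymm h1 zero_le

end Pool.Agent.W749.ST
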