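import Mathlib
set_option autoImplicit false
open Set Filter Topology MeasureTheory Metric
open scoped ENNReal ContDiff

namespace Pool.Agent.W749.ST

variable {E : Type*} [NormedAddCommGroup E] [InnerProductSpace ℝ E] [FiniteDimensional ℝ E]

/-- the model cutoff -/
noncomputable def bump0 (E : Type*) [NormedAddCommGroup E] [InnerProductSpace ℝ E]
    [FiniteDimensional ℝ E] : ContDiffBump (0 : E) := ⟨1, 2, one_pos, by norm_num⟩

/-- cutoff: equal to `1` on the ball of radius `r` about `x` and to `0` outside the ball of radius `2 r` -/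
noncomputable def cut (x : E) (r : ℝ) (y : E) : ℝ := bump0 E (r⁻¹ • (y - x))

theorem cut_smooth (x : E) (r : ℝ) : ContDiff ℝ ∞ (cut x r) := by
  unfold cut
  exact (bump0 E).contDiff.comp (by fun_prop)

theorem cut_nonneg (x : E) (r : ℝ) (y : E) : 0 ≤ cut x r y := (bump0 E).nonneg

theorem cut_le_one (x : E) (r : ℝ) (y : E) : cut x r y ≤ 1 := (bump0 E).le_one

theorem cut_one {x y : E} {r : ℝ} (hr : 0 < r) (hy : y ∈ closedBall x r) : cut x r y = 1 := by
  unfold cut
  apply (bump0 E).one_of_mem_closedBall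
  show r⁻¹ • (y - x) ∈ closedBall (0 : E) 1
  rw [mem_closedBall, dist_eq_norm, sub_zero, norm_smul, norm_inv, Real.norm_of_nonneg hr.le,
    inv_mul_le_iff₀ hr, mul_one, ← dist_eq_norm]
  exact hy

theorem cut_zero {x y : E} {r : ℝ} (hr : 0 < r) (hy : y ∉ ball x (2 * r)) : cut x r y = 0 := by
  unfold cut
  apply (bump0 E).zero_of_le_dist
  show 2 ≤ dist (r⁻¹ • (y - x)) 0
  rw [mem_ball, not_lt, dist_eq_norm] at hy
  rw [dist_eq_norm, sub_zero, norm_smul, norm_inv, Real.norm_of_nonneg hr.le,
    le_inv_mul_iff₀ hr]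
  linarith

theorem cut_deriv (E : Type*) [NormedAddCommGroup E] [InnerProductSpace ℝ E]
    [FiniteDimensional ℝ E] : ∃ C : ℝ, 0 < C ∧ ∀ (x : E) (r : ℝ), 0 < r → ∀ y,
      ‖fderiv ℝ (cut x r) y‖ ≤ (closedBall x (2 * r)).indicator (fun _ => C / r) y := by
  have hc : Continuous (fderiv ℝ (bump0 E : E → ℝ)) :=
    ((bump0 E).contDiff (n := 1)).continuous_fderiv (by simp)
  have hs : HasCompactSupport (fderiv ℝ (bump0 E : E → ℝ)) :=
    (bump0 E).hasCompactSupport.fderiv (𝕜 := ℝ)
  obtain ⟨C, hC⟩ := hc.bounded_above_of_compact_support hs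
  refine ⟨max C 1, lt_max_of_lt_right one_pos, fun x r hr y => ?_⟩
  have hfd : fderiv ℝ (cut x r) y = r⁻¹ • fderiv ℝ (bump0 E : E → ℝ) (r⁻¹ • (y - x)) := by
    have h1 : HasFDerivAt (fun y : E => r⁻¹ • (y - x)) (r⁻¹ • ContinuousLinearMap.id ℝ E) y :=
      ((hasFDerivAt_id y).sub_const x).const_smul r⁻¹
    have h2 : HasFDerivAt (bump0 E : E → ℝ) (fderiv ℝ (bump0 E : E → ℝ) (r⁻¹ • (y - x)))
        (r⁻¹ • (y - x)) :=
      (((bump0 E).contDiff (n := 1)).differentiable (by simp) _).hasFDerivAt
    have h3 := h2.comp y h1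
    have h4 : fderiv ℝ (cut x r) y = _ := h3.fderiv
    rw [h4]
    ext v
    simp
  by_cases hy : y ∈ closedBall x (2 * r)
  · rw [indicator_of_mem hy, hfd, norm_smul, norm_inv, Real.norm_of_nonneg hr.le]
    rw [div_eq_inv_mul]
    gcongr
    exact (hC _).trans (le_max_left _ _)
  · rw [indicator_of_notMem hy]
    have : cut x r =ᶠ[𝓝 y] fun _ => 0 := by
      have hopen : IsOpen (closedBall x (2 * r))ᶜ := isClosed_closedBall.isOpen_compl
      filter_upwards [hopen.mem_nhds hy] with z hz
      apply cut_zero hr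
      intro h
      exact hz (ball_subset_closedBall h)
    rw [this.fderiv_eq]
    simp

/-- derivative of a product of functions with values in `[0, 1]` -/
theorem prod_deriv {ι : Type*} [DecidableEq ι] (s : Finset ι) (f : ι → E → ℝ) (y : E)
    (hf : ∀ i ∈ s, DifferentiableAt ℝ (f i) y) (h0 : ∀ i ∈ s, 0 ≤ f i y) (h1 : ∀ i ∈ s, f i y ≤ 1) :
    ‖fderiv ℝ (fun y => ∏ i ∈ s, f i y) y‖ ≤ ∑ i ∈ s, ‖fderiv ℝ (f i) y‖ := by
  induction s using Finset.induction_on with
  | empty => simp
  | insert a s ha ih =>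
    simp only [Finset.prod_insert ha, Finset.sum_insert ha]
    have hfs : DifferentiableAt ℝ (fun y => ∏ i ∈ s, f i y) y :=
      (HasFDerivAt.finsetProd (g := f) fun i hi =>
        (hf i (Finset.mem_insert_of_mem hi)).hasFDerivAt).differentiableAt
    rw [fderiv_fun_mul (hf a (Finset.mem_insert_self _ _)) hfs]
    have hp0 : 0 ≤ ∏ i ∈ s, f i y := Finset.prod_nonneg fun i hi => h0 i (Finset.mem_insert_of_mem hi)
    have hp1 : ∏ i ∈ s, f i y ≤ 1 :=
      Finset.prod_le_one (fun i hi => h0 i (Finset.mem_insert_of_mem hi))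
        (fun i hi => h1 i (Finset.mem_insert_of_mem hi))
    have ha0 := h0 a (Finset.mem_insert_self _ _)
    have ha1 := h1 a (Finset.mem_insert_self _ _)
    have ih' := ih (fun i hi => hf i (Finset.mem_insert_of_mem hi))
      (fun i hi => h0 i (Finset.mem_insert_of_mem hi)) (fun i hi => h1 i (Finset.mem_insert_of_mem hi))
    calc ‖f a y • fderiv ℝ (fun y => ∏ i ∈ s, f i y) y + (∏ i ∈ s, f i y) • fderiv ℝ (f a) y‖
        ≤ ‖f a y • fderiv ℝ (fun y => ∏ i ∈ s, f i y) y‖ + ‖(∏ i ∈ s, f i y) • fderiv ℝ (f a) y‖ :=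
          norm_add_le _ _
      _ ≤ 1 * ‖fderiv ℝ (fun y => ∏ i ∈ s, f i y) y‖ + 1 * ‖fderiv ℝ (f a) y‖ := by
          rw [norm_smul, norm_smul, Real.norm_of_nonneg hp0, Real.norm_of_nonneg ha0]
          gcongr
      _ ≤ ‖fderiv ℝ (f a) y‖ + ∑ i ∈ s, ‖fderiv ℝ (f i) y‖ := by linarith

/-- the test function number `i` -/
noncomputable def test (x : ℕ → E) (r : ℕ → ℝ) (i : ℕ) (y : E) : ℝ :=
  cut (x i) (r i) y * ∏ j ∈ Finset.range i, (1 - cut (x j) (4 * r j) y)

theorem test_smooth (x : ℕ → E) (r : ℕ → ℝ) (i : ℕ) : ContDiff ℝ ∞ (test x r i) := by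
  unfold test
  exact (cut_smooth _ _).mul (contDiff_prod fun j _ => contDiff_const.sub (cut_smooth _ _))

theorem test_nonneg (x : ℕ → E) (r : ℕ → ℝ) (i : ℕ) (y : E) : 0 ≤ test x r i y := by
  unfold test
  exact mul_nonneg (cut_nonneg _ _ _) (Finset.prod_nonneg fun j _ => by
    linarith [cut_le_one (x j) (4 * r j) y])

theorem test_le_one (x : ℕ → E) (r : ℕ → ℝ) (i : ℕ) (y : E) : test x r i y ≤ 1 := by
  unfold test
  refine mul_le_one₀ (cut_le_one _ _ _) (Finset.prod_nonneg fun j _ => by
    linarith [cut_le_one (x j) (4 * r j) y]) (Finset.prod_le_one (fun j _ => by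
    linarith [cut_le_one (x j) (4 * r j) y]) fun j _ => by linarith [cut_nonneg (x j) (4 * r j) y])

theorem test_one {x : ℕ → E} {r : ℕ → ℝ} {i : ℕ} (hr : ∀ j ≤ i, 0 < r j) {y : E}
    (hy : y ∈ closedBall (x i) (r i)) (hy2 : ∀ j < i, y ∉ closedBall (x j) (8 * r j)) :
    test x r i y = 1 := by
  unfold test
  rw [cut_one (hr i le_rfl) hy, one_mul]
  apply Finset.prod_eq_one
  intro j hj
  have hj' := Finset.mem_range.1 hj
  rw [cut_zero, sub_zero]
  · have := hr j hj'.le
    positivity
  · intro h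
    apply hy2 j hj'
    apply ball_subset_closedBall
    convert h using 2
    ring

theorem test_disj {x : ℕ → E} {r : ℕ → ℝ} {i j : ℕ} (hij : j < i) (hr : ∀ l ≤ i, 0 < r l) (y : E) :
    test x r i y * test x r j y = 0 := by
  have hrj := hr j hij.le
  by_cases h : y ∈ ball (x j) (2 * r j)
  · have h1 : test x r i y = 0 := by
      unfold test
      apply mul_eq_zero_of_right
      apply Finset.prod_eq_zero (Finset.mem_range.2 hij)
      rw [cut_one (by positivity), sub_self]
      rw [mem_ball] at h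
      rw [mem_closedBall]
      linarith
    rw [h1, zero_mul]
  · have h1 : test x r j y = 0 := by
      unfold test
      rw [cut_zero hrj h, zero_mul]
    rw [h1, mul_zero]

theorem test_deriv {C : ℝ} (hC0 : 0 < C) (hC : ∀ (x : E) (r : ℝ), 0 < r → ∀ y,
      ‖fderiv ℝ (cut x r) y‖ ≤ (closedBall x (2 * r)).indicator (fun _ => C / r) y)
    {x : ℕ → E} {r : ℕ → ℝ} {i K : ℕ} (hi : i < K) (hr : ∀ j < K, 0 < r j) (y : E) :
    ‖fderiv ℝ (test x r i) y‖ ≤
      ∑ j ∈ Finset.range K, (closedBall (x j) (8 * r j)).indicator (fun _ => C / r j) y := by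
  have hd1 : ∀ (a : E) (s : ℝ), DifferentiableAt ℝ (cut a s) y := fun a s =>
    ((cut_smooth a s).differentiable (by simp)) y
  have hd2 : ∀ j, DifferentiableAt ℝ (fun y => 1 - cut (x j) (4 * r j) y) y := fun j =>
    (hd1 _ _).const_sub _
  have e : test x r i = fun y => ∏ j ∈ Finset.range (i + 1),
      (if j = i then cut (x i) (r i) y else 1 - cut (x j) (4 * r j) y) := by
    funext y
    rw [Finset.prod_range_succ]
    unfold test
    rw [if_pos rfl, mul_comm]
    congr 1
    apply Finset.prod_congr rfl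
    intro j hj
    rw [if_neg (Finset.mem_range.1 hj).ne]
  rw [e]
  refine (prod_deriv (Finset.range (i + 1)) (fun j y => if j = i then cut (x i) (r i) y else
    1 - cut (x j) (4 * r j) y) y ?_ ?_ ?_).trans ?_
  · intro j _
    by_cases h : j = i
    · simp only [h, if_true]; exact hd1 _ _
    · simp only [h, if_false]; exact hd2 _
  · intro j _
    by_cases h : j = i
    · simp only [h, if_true]; exact cut_nonneg _ _ _
    · simp only [h, if_false]; linarith [cut_le_one (x j) (4 * r j) y]
  · intro j _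
    by_cases h : j = i
    · simp only [h, if_true]; exact cut_le_one _ _ _
    · simp only [h, if_false]; linarith [cut_nonneg (x j) (4 * r j) y]
  · refine le_trans (Finset.sum_le_sum (g := fun j => (closedBall (x j) (8 * r j)).indicator
      (fun _ => C / r j) y) fun j hj => ?_) (Finset.sum_le_sum_of_subset_of_nonneg
      (Finset.range_mono (by omega)) fun j hj _ => ?_)
    · have hrj := hr j (by have := Finset.mem_range.1 hj; omega)
      by_cases h : j = i
      · simp only [h, if_true]
        subst h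
        refine (hC _ _ hrj y).trans ?_
        apply indicator_le_indicator_of_subset
        · apply closedBall_subset_closedBall
          linarith
        · intro _; positivity
      · simp only [h, if_false]
        rw [fderiv_const_sub, norm_neg]
        refine (hC _ _ (by positivity) y).trans ?_
        rw [show 2 * (4 * r j) = 8 * r j by ring]
        apply indicator_le_indicator
        gcongr
        linarith
    · have hrj := hr j (Finset.mem_range.1 hj)
      apply indicator_nonneg
      intro _ _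
      positivity

end Pool.Agent.W749.ST
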