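import Mathlib
import Pool.Agent.W545.Man.Chart
set_option autoImplicit false
open Set Filter Topology MeasureTheory Metric
open scoped ENNReal Manifold ContDiff

namespace Pool.Agent.W749.ST
open Pool.Agent.W545.Man

variable {d : ℕ} {Ω : Type*} [TopologicalSpace Ω] [ChartedSpace (EuclideanHalfSpace (d + 1)) Ω]
  [IsManifold (𝓡∂ (d + 1)) ∞ Ω]

theorem coeff_conf (g : RMetric d Ω) (f : PosFun d Ω) (c z : Ω) (v w : EE d) :
    coeff (conf g f).inner c z v w = f.1 z ^ 2 * coeff g.inner c z v w := rfl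

theorem gram_conf (g : RMetric d Ω) (f : PosFun d Ω) (c z : Ω) :
    gram (conf g f) c z = (f.1 z ^ 2) • gram g c z := by
  ext i j
  rfl

theorem bgram_conf (g : RMetric d Ω) (f : PosFun d Ω) (c z : Ω) :
    bgram (conf g f) c z = (f.1 z ^ 2) • bgram g c z := by
  ext i j
  rfl

theorem sqrt_gram_conf (g : RMetric d Ω) (f : PosFun d Ω) (c z : Ω) :
    √(gram (conf g f) c z).det = f.1 z ^ (d + 1) * √(gram g c z).det := by
  have hf := f.2 z
  rw [gram_conf, Matrix.det_smul, Fintype.card_fin, ← pow_mul, mul_comm 2 (d + 1), pow_mul,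
    Real.sqrt_mul (by positivity), Real.sqrt_sq (by positivity)]

/-- `|du|²` for the conformal metric, upper bound -/
theorem gradSq_conf_le (g : RMetric d Ω) (f : PosFun d Ω) {u : Ω → ℝ} {c x : Ω}
    (hx : x ∈ (ph d c).source) (hu : MDifferentiableAt (𝓡∂ (d + 1)) 𝓘(ℝ, ℝ) u x) {a : ℝ} (ha : 0 < a)
    (hB : ∀ v, a * ‖v‖ ^ 2 ≤ coeff g.inner c x v v) :
    gradSq (conf g f) u x ≤
      ENNReal.ofReal ((a * f.1 x ^ 2)⁻¹) * ‖Dloc d c u (ph d c x)‖ₑ ^ (2 : ℝ) := by
  have hf := f.2 x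
  rw [gradSq_chart (conf g f) hx hu]
  refine (sup_le_of_bound (a := a * f.1 x ^ 2) (by positivity) fun v => ?_).trans ?_
  · rw [coeff_conf]
    have := hB v
    have h2 : 0 ≤ f.1 x ^ 2 := by positivity
    nlinarith
  · rw [ENNReal.ofReal_mul (by positivity)]
    gcongr
    rw [ENNReal.rpow_two, ← ofReal_norm, ENNReal.ofReal_pow (norm_nonneg _)]

theorem meas_ind {K : Set (EE d)} (hK : IsCompact K) {h : EE d → ℝ≥0∞}
    (hL : ContinuousOn h K) : Measurable (K.indicator h) := by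
  classical
  have := hL.measurable_piecewise (continuousOn_const (c := (0:ℝ≥0∞)) (s := Kᶜ)) hK.measurableSet
  convert this using 1
  ext y
  by_cases hy : y ∈ K <;> simp [hy]

variable [MeasurableSpace Ω] [BorelSpace Ω]

omit [IsManifold (𝓡∂ (d + 1)) ∞ Ω] in
theorem src_meas (c : Ω) : MeasurableSet (chartAt (EuclideanHalfSpace (d + 1)) c).source :=
  (chartAt (EuclideanHalfSpace (d + 1)) c).open_source.measurableSet

/-- integration of a function supported in a compact subset of the chart -/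
theorem vol_K {g : RMetric d Ω} {μ : Measure Ω} (hμ : IsVolume g μ) (c : Ω) {K : Set (EE d)}
    (hK : IsCompact K) (hKt : K ⊆ (ph d c).target) {h : EE d → ℝ≥0∞}
    (hh : Measurable (K.indicator h)) :
    ∫⁻ x in (chartAt (EuclideanHalfSpace (d + 1)) c).source, K.indicator h (ph d c x) ∂μ =
      ∫⁻ y in K, h y * ENNReal.ofReal (√(gram g c ((ph d c).symm y)).det) := by
  rw [hμ c (K.indicator h) hh]
  have e : (fun y => K.indicator h y *
      ENNReal.ofReal (√(gram g c ((extChartAt (𝓡∂ (d + 1)) c).symm y)).det)) =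
      K.indicator fun y => h y * ENNReal.ofReal (√(gram g c ((ph d c).symm y)).det) := by
    funext y
    by_cases hy : y ∈ K <;> simp [hy]
  rw [e, lintegral_indicator hK.measurableSet, Measure.restrict_restrict hK.measurableSet,
    inter_eq_self_of_subset_left hKt]

theorem energy_bound' (hd : 1 ≤ d) (g : RMetric d Ω) (c : Ω) {K : Set (EE d)} (hK : IsCompact K)
    (hKt : K ⊆ (ph d c).target) : ∃ A : ℝ≥0∞, A ≠ ⊤ ∧ ∀ (f : PosFun d Ω) (μ : Measure Ω),
      IsVolume (conf g f) μ → ∀ (u : Ω → ℝ), ContMDiff (𝓡∂ (d + 1)) 𝓘(ℝ, ℝ) ∞ u →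
      (∀ x, ¬ (x ∈ (ph d c).source ∧ ph d c x ∈ K) → dif (d := d) u x = 0) →
      ∀ B : EE d → ℝ≥0∞, Measurable B → (∀ y ∈ K, ‖Dloc d c u y‖ₑ ≤ B y) →
      energy (conf g f) μ u ≤ μ univ ^ (((d : ℝ) - 1) / (d + 1)) *
        (A * ∫⁻ y in K, B y ^ ((d : ℝ) + 1)) ^ (2 / ((d : ℝ) + 1)) := by
  obtain ⟨a, _, ha, _, hab⟩ := coeff_bounds g c hK hKt
  obtain ⟨_, b, _, hb, hdet⟩ := det_bounds g c hK hKt
  have hd' : (1 : ℝ) ≤ d := by exact_mod_cast hd
  set p : ℝ := ((d : ℝ) - 1) / (d + 1) with hp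
  set q : ℝ := 2 / ((d : ℝ) + 1) with hq
  have hp0 : 0 ≤ p := div_nonneg (by linarith) (by linarith)
  have hq0 : 0 < q := by positivity
  have hpq : p + q = 1 := by
    rw [hp, hq, ← add_div, div_eq_one_iff_eq (by positivity)]
    ring
  set A' : ℝ≥0∞ := ENNReal.ofReal (a⁻¹ * b ^ q) with hA'
  refine ⟨A' ^ q⁻¹, ENNReal.rpow_ne_top_of_nonneg (by positivity) ENNReal.ofReal_ne_top, ?_⟩
  intro f μ hμ u hu hu0 B hB hBu
  set ft : EE d → ℝ := fun y => f.1 ((ph d c).symm y) with hft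
  set W : EE d → ℝ := fun y => √(gram g c ((ph d c).symm y)).det with hW
  have hftpos : ∀ y, 0 < ft y := fun y => f.2 _
  have hftc : ContinuousOn ft K := ((loc_contDiff f.1.contMDiff c).continuousOn).mono hKt
  have hWc : ContinuousOn W K := by
    apply ContinuousOn.sqrt
    exact Continuous.comp_continuousOn (Continuous.matrix_det continuous_id)
      ((gram_cont g c).mono hKt)
  set Θ : EE d → ℝ≥0∞ := fun y => ENNReal.ofReal (√(gram (conf g f) c ((ph d c).symm y)).det) with hΘ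
  have hΘe : ∀ y, Θ y = ENNReal.ofReal (ft y ^ (d + 1) * W y) := by
    intro y
    simp only [hΘ, hft, hW]
    rw [sqrt_gram_conf]
  have hΘc : ContinuousOn Θ K := by
    have : Θ = fun y => ENNReal.ofReal (ft y ^ (d + 1) * W y) := funext hΘe
    rw [this]
    exact ENNReal.continuous_ofReal.comp_continuousOn ((hftc.pow _).mul hWc)
  set h : EE d → ℝ≥0∞ := fun y => ENNReal.ofReal ((a * ft y ^ 2)⁻¹) * B y ^ (2 : ℝ) with hh
  have hhm : Measurable (K.indicator h) := by
    have e : K.indicator h = fun y => K.indicator (fun y => ENNReal.ofReal ((a * ft y ^ 2)⁻¹)) y *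
        B y ^ (2 : ℝ) := by
      funext y
      by_cases hy : y ∈ K <;> simp [hy, hh]
    rw [e]
    refine Measurable.mul (meas_ind hK ?_) (hB.pow_const _)
    apply ENNReal.continuous_ofReal.comp_continuousOn
    exact ContinuousOn.inv₀ (continuousOn_const.mul (hftc.pow 2)) fun y _ => by
      have := hftpos y
      positivity
  -- first step
  have h1 : energy (conf g f) μ u ≤
      ∫⁻ x in (chartAt (EuclideanHalfSpace (d + 1)) c).source, K.indicator h (ph d c x) ∂μ := by
    unfold energy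
    rw [← lintegral_indicator (src_meas c)]
    apply lintegral_mono
    intro x
    by_cases hx : x ∈ (ph d c).source ∧ ph d c x ∈ K
    · have hx1 : x ∈ (chartAt (EuclideanHalfSpace (d + 1)) c).source := by
        rw [← extChartAt_source (𝓡∂ (d + 1)) c]; exact hx.1
      simp only
      rw [indicator_of_mem hx1, indicator_of_mem hx.2]
      have hxx : (ph d c).symm (ph d c x) = x := (ph d c).left_inv hx.1
      have h2 := gradSq_conf_le g f hx.1 ((hu.mdifferentiable (by simp)) x) ha (fun v => by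
        have := (hab _ hx.2 v).1
        rwa [hxx] at this)
      refine h2.trans ?_
      simp only [hh, hft]
      rw [hxx]
      gcongr
      exact hBu _ hx.2
    · have h0 := hu0 x hx
      have : gradSq (conf g f) u x = 0 := by
        unfold gradSq
        rw [h0]
        simp
      simp only
      rw [this]
      exact zero_le
  refine h1.trans ?_
  rw [vol_K hμ c hK hKt hhm]
  -- pointwise bound
  have h2 : ∫⁻ y in K, h y * ENNReal.ofReal (√(gram (conf g f) c ((ph d c).symm y)).det) ≤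
      ∫⁻ y in K, Θ y ^ p * (A' ^ q⁻¹ * B y ^ ((d : ℝ) + 1)) ^ q := by
    apply lintegral_mono_ae
    filter_upwards [ae_restrict_mem hK.measurableSet] with y hy
    have e1 : (A' ^ q⁻¹ * B y ^ ((d : ℝ) + 1)) ^ q = A' * B y ^ (2 : ℝ) := by
      rw [ENNReal.mul_rpow_of_nonneg _ _ hq0.le, ← ENNReal.rpow_mul, ← ENNReal.rpow_mul,
        inv_mul_cancel₀ hq0.ne', ENNReal.rpow_one]
      congr 2
      rw [hq]
      field_simp
    have e2 : Θ y = Θ y ^ p * Θ y ^ q := by
      rw [← ENNReal.rpow_add_of_nonneg _ _ hp0 hq0.le, hpq, ENNReal.rpow_one]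
    rw [e1]
    show h y * Θ y ≤ _
    have hfy := hftpos y
    have hWy : 0 ≤ W y := Real.sqrt_nonneg _
    have e3 : ENNReal.ofReal ((a * ft y ^ 2)⁻¹) * Θ y ^ q ≤ A' := by
      rw [hΘe, ENNReal.ofReal_rpow_of_nonneg (by positivity) hq0.le, ← ENNReal.ofReal_mul (by positivity)]
      apply ENNReal.ofReal_le_ofReal
      have e4 : (ft y ^ (d + 1) * W y) ^ q = ft y ^ 2 * W y ^ q := by
        rw [Real.mul_rpow (by positivity) hWy]
        congr 1
        rw [← Real.rpow_natCast, ← Real.rpow_mul hfy.le, hq]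
        have : (((d + 1 : ℕ) : ℝ)) * (2 / ((d : ℝ) + 1)) = (2 : ℕ) := by
          push_cast
          field_simp
        rw [this, Real.rpow_natCast]
      rw [e4]
      have e5 : (a * ft y ^ 2)⁻¹ * (ft y ^ 2 * W y ^ q) = a⁻¹ * W y ^ q := by
        field_simp
      rw [e5]
      have : W y ≤ b := (hdet y hy).2
      gcongr
    calc h y * Θ y = h y * (Θ y ^ p * Θ y ^ q) := by rw [← e2]
      _ = Θ y ^ p * ((ENNReal.ofReal ((a * ft y ^ 2)⁻¹) * Θ y ^ q) *
          B y ^ (2 : ℝ)) := by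
          simp only [hh]
          ring
      _ ≤ Θ y ^ p * (A' * B y ^ (2 : ℝ)) := by gcongr
  refine h2.trans ?_
  have h3 := ENNReal.lintegral_mul_norm_pow_le (μ := volume.restrict K) (f := Θ)
    (g := fun y => A' ^ q⁻¹ * B y ^ ((d : ℝ) + 1)) (hΘc.aemeasurable hK.measurableSet)
    ((hB.pow_const _).const_mul _).aemeasurable hp0 hq0.le hpq
  refine h3.trans ?_
  rw [lintegral_const_mul _ (hB.pow_const _)]
  gcongr
  -- the volume
  have h4 := vol_K hμ c hK hKt (h := fun _ => 1) (meas_ind hK continuousOn_const)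
  simp only [one_mul] at h4
  calc ∫⁻ y in K, Θ y = ∫⁻ x in (chartAt (EuclideanHalfSpace (d + 1)) c).source,
        K.indicator (fun _ => 1) (ph d c x) ∂μ := h4.symm
    _ ≤ ∫⁻ x in (chartAt (EuclideanHalfSpace (d + 1)) c).source, 1 ∂μ := by
        apply lintegral_mono
        intro x
        exact indicator_le_self' (fun _ _ => zero_le) _
    _ ≤ μ univ := by
        rw [lintegral_one, Measure.restrict_apply_univ]
        exact measure_mono (subset_univ _)

theorem energy_bound (hd : 2 ≤ d) (g : RMetric d Ω) (c : Ω) {K : Set (EE d)} (hK : IsCompact K)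
    (hKt : K ⊆ (ph d c).target) : ∃ A : ℝ≥0∞, A ≠ ⊤ ∧ ∀ (f : PosFun d Ω) (μ : Measure Ω),
      IsVolume (conf g f) μ → ∀ (u : Ω → ℝ), ContMDiff (𝓡∂ (d + 1)) 𝓘(ℝ, ℝ) ∞ u →
      (∀ x, ¬ (x ∈ (ph d c).source ∧ ph d c x ∈ K) → dif (d := d) u x = 0) →
      ∀ B : EE d → ℝ≥0∞, Measurable B → (∀ y ∈ K, ‖Dloc d c u y‖ₑ ≤ B y) →
      energy (conf g f) μ u ≤ μ univ ^ (((d : ℝ) - 1) / (d + 1)) *
        (A * ∫⁻ y in K, B y ^ ((d : ℝ) + 1)) ^ (2 / ((d : ℝ) + 1)) :=
  energy_bound' (by omega) g c hK hKt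

end Pool.Agent.W749.ST
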