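import Mathlib
set_option autoImplicit false
open Set Filter Topology MeasureTheory Metric
open scoped ENNReal

namespace Pool.Agent.W749.ST

variable {F : Type*} [NormedAddCommGroup F] [NormedSpace ℝ F] [FiniteDimensional ℝ F]

theorem cover16 (F : Type*) [NormedAddCommGroup F] [NormedSpace ℝ F] [FiniteDimensional ℝ F] :
    ∃ N : ℕ, 0 < N ∧ ∀ (x : F) (ρ : ℝ), 0 < ρ →
      ∃ t : Finset F, t.card ≤ N ∧ closedBall x (16 * ρ) ⊆ ⋃ y ∈ t, closedBall y ρ := by
  classical
  haveI : ProperSpace F := FiniteDimensional.proper ℝ F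
  obtain ⟨t, _, htf, ht⟩ := (isCompact_closedBall (0 : F) 16).finite_cover_balls (e := 1) one_pos
  refine ⟨htf.toFinset.card + 1, Nat.succ_pos _, fun x ρ hρ => ?_⟩
  refine ⟨htf.toFinset.image fun y => x + ρ • y, Finset.card_image_le.trans (Nat.le_succ _), ?_⟩
  intro z hz
  have h1 : ρ⁻¹ • (z - x) ∈ closedBall (0 : F) 16 := by
    rw [mem_closedBall, dist_eq_norm, sub_zero, norm_smul, norm_inv, Real.norm_of_nonneg hρ.le]
    rw [mem_closedBall, dist_eq_norm] at hz
    rw [inv_mul_le_iff₀ hρ]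
    linarith
  obtain ⟨y, hy, hzy⟩ := mem_iUnion₂.1 (ht h1)
  simp only [Finset.mem_image, Finite.mem_toFinset, mem_iUnion, exists_prop]
  refine ⟨x + ρ • y, ⟨y, hy, rfl⟩, ?_⟩
  rw [mem_ball, dist_eq_norm] at hzy
  rw [mem_closedBall, dist_eq_norm]
  have e : z - (x + ρ • y) = ρ • (ρ⁻¹ • (z - x) - y) := by
    rw [smul_sub, smul_smul, mul_inv_cancel₀ hρ.ne', one_smul]
    abel
  rw [e, norm_smul, Real.norm_of_nonneg hρ.le]
  nlinarith

variable [MeasurableSpace F] [BorelSpace F]

theorem greedy_step (m : Measure F) [IsFiniteMeasure m] {R : ℝ} (hR : 0 < R)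
    (hsupp : m (closedBall 0 R)ᶜ = 0)
    (hsmall : ∀ ε : ℝ≥0∞, 0 < ε → ∃ δ : ℝ, 0 < δ ∧ ∀ x, m (closedBall x δ) < ε)
    {N : ℕ} (hN : ∀ (x : F) (ρ : ℝ), 0 < ρ →
      ∃ t : Finset F, t.card ≤ N ∧ closedBall x (16 * ρ) ⊆ ⋃ y ∈ t, closedBall y ρ)
    {c0 : ℝ≥0∞} (hc0 : 0 < c0) {D : Set F} (hD : c0 ≤ m D) :
    ∃ (x : F) (r : ℝ), 0 < r ∧ c0 ≤ m (closedBall x r ∩ D) ∧ m (closedBall x (8 * r) ∩ D) ≤ N * c0 := by
  classical
  have hex : ∃ l : ℕ, ¬ ∃ x, c0 ≤ m (closedBall x (R / 2 ^ l) ∩ D) := by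
    obtain ⟨δ, hδ, hs⟩ := hsmall c0 hc0
    obtain ⟨l, hl⟩ := exists_pow_lt_of_lt_one (show 0 < δ / R by positivity)
      (show (1 / 2 : ℝ) < 1 by norm_num)
    refine ⟨l, ?_⟩
    rintro ⟨x, hx⟩
    have h1 : R / 2 ^ l ≤ δ := by
      rw [one_div, inv_pow, lt_div_iff₀ hR] at hl
      rw [div_eq_inv_mul]
      exact hl.le
    have h2 : m (closedBall x (R / 2 ^ l) ∩ D) ≤ m (closedBall x δ) :=
      measure_mono (inter_subset_left.trans (closedBall_subset_closedBall h1))
    exact absurd (hx.trans h2) (not_le.2 (hs x))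
  have h0 : ∃ x, c0 ≤ m (closedBall x (R / 2 ^ 0) ∩ D) := by
    refine ⟨0, hD.trans ?_⟩
    rw [pow_zero, div_one]
    calc m D ≤ m (closedBall 0 R ∩ D) + m ((closedBall 0 R)ᶜ ∩ D) := by
          refine (measure_mono ?_).trans (measure_union_le _ _)
          intro y hy
          by_cases h : y ∈ closedBall 0 R
          · exact Or.inl ⟨h, hy⟩
          · exact Or.inr ⟨h, hy⟩
      _ ≤ m (closedBall 0 R ∩ D) + 0 := by
          gcongr
          exact (measure_mono inter_subset_left).trans hsupp.le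
      _ = _ := add_zero _
  set l0 := Nat.find hex with hl0
  have hl0s : ¬ ∃ x, c0 ≤ m (closedBall x (R / 2 ^ l0) ∩ D) := Nat.find_spec hex
  have hl0pos : l0 ≠ 0 := by
    intro h
    rw [h] at hl0s
    exact hl0s h0
  obtain ⟨l, hl⟩ := Nat.exists_eq_succ_of_ne_zero hl0pos
  have hPl : ∃ x, c0 ≤ m (closedBall x (R / 2 ^ l) ∩ D) := by
    by_contra hcon
    have := Nat.find_min' hex hcon
    omega
  obtain ⟨x, hx⟩ := hPl
  refine ⟨x, R / 2 ^ l, by positivity, hx, ?_⟩
  obtain ⟨t, htc, ht⟩ := hN x (R / 2 ^ l0) (by positivity)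
  have e : 16 * (R / 2 ^ l0) = 8 * (R / 2 ^ l) := by
    rw [hl, Nat.succ_eq_add_one, pow_succ]
    field_simp
    norm_num
  rw [e] at ht
  push Not at hl0s
  calc m (closedBall x (8 * (R / 2 ^ l)) ∩ D) ≤ m (⋃ y ∈ t, closedBall y (R / 2 ^ l0) ∩ D) := by
        apply measure_mono
        rw [← iUnion₂_inter]
        exact inter_subset_inter_left _ ht
    _ ≤ ∑ y ∈ t, m (closedBall y (R / 2 ^ l0) ∩ D) := measure_biUnion_finset_le _ _
    _ ≤ ∑ y ∈ t, c0 := Finset.sum_le_sum fun y _ => (hl0s y).le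
    _ = t.card * c0 := by rw [Finset.sum_const, nsmul_eq_mul]
    _ ≤ N * c0 := by gcongr

/-- the union of the first `i` balls, enlarged by the factor `8` -/
def UB (x : ℕ → F) (r : ℕ → ℝ) (i : ℕ) : Set F := ⋃ l ∈ Finset.range i, closedBall (x l) (8 * r l)

theorem greedy (m : Measure F) [IsFiniteMeasure m] {R : ℝ} (hR : 0 < R)
    (hsupp : m (closedBall 0 R)ᶜ = 0)
    (hsmall : ∀ ε : ℝ≥0∞, 0 < ε → ∃ δ : ℝ, 0 < δ ∧ ∀ x, m (closedBall x δ) < ε)
    {N : ℕ} (hN0 : 0 < N) (hN : ∀ (x : F) (ρ : ℝ), 0 < ρ →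
      ∃ t : Finset F, t.card ≤ N ∧ closedBall x (16 * ρ) ⊆ ⋃ y ∈ t, closedBall y ρ)
    {c0 : ℝ≥0∞} (hc0 : 0 < c0) {K : ℕ} (hT : K * N * c0 ≤ m univ) (i : ℕ) (hi : i ≤ K) :
    ∃ (x : ℕ → F) (r : ℕ → ℝ), (∀ j < i, 0 < r j ∧ c0 ≤ m (closedBall (x j) (r j) \ UB x r j)) ∧
      m (UB x r i) ≤ i * N * c0 := by
  classical
  induction i with
  | zero => exact ⟨fun _ => 0, fun _ => 1, by simp, by simp [UB]⟩
  | succ i ih =>
    obtain ⟨x, r, h1, h2⟩ := ih (by omega)
    have hmeas : MeasurableSet (UB x r i) :=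
      Finset.measurableSet_biUnion _ fun l _ => isClosed_closedBall.measurableSet
    have hD : c0 ≤ m (UB x r i)ᶜ := by
      have hfin : (i : ℝ≥0∞) * N * c0 ≠ ⊤ := by
        have h3 : (i : ℝ≥0∞) * N * c0 ≤ K * N * c0 := by
          gcongr
          omega
        exact (h3.trans hT).trans_lt (measure_lt_top m _) |>.ne
      have h4 : m univ = m (UB x r i) + m (UB x r i)ᶜ := (measure_add_measure_compl hmeas).symm
      have h5 : (i : ℝ≥0∞) * N * c0 + c0 ≤ i * N * c0 + m (UB x r i)ᶜ := by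
        calc (i : ℝ≥0∞) * N * c0 + c0 ≤ i * N * c0 + 1 * N * c0 := by
              gcongr
              rw [one_mul]
              exact le_mul_of_one_le_left zero_le (by exact_mod_cast hN0)
          _ = (i + 1 : ℕ) * N * c0 := by push_cast; ring
          _ ≤ K * N * c0 := by gcongr
          _ ≤ m univ := hT
          _ = m (UB x r i) + m (UB x r i)ᶜ := h4
          _ ≤ _ := by gcongr
      exact (ENNReal.add_le_add_iff_left hfin).1 h5
    obtain ⟨y, s, hs, hy1, hy2⟩ := greedy_step m hR hsupp hsmall hN hc0 hD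
    have hU : ∀ j ≤ i, UB (Function.update x i y) (Function.update r i s) j = UB x r j := by
      intro j hj
      unfold UB
      refine iUnion₂_congr fun l hl => ?_
      have : l ≠ i := by
        have := Finset.mem_range.1 hl
        omega
      rw [Function.update_of_ne this, Function.update_of_ne this]
    refine ⟨Function.update x i y, Function.update r i s, ?_, ?_⟩
    · intro j hj
      rw [hU j (by omega)]
      by_cases hji : j = i
      · subst hji
        rw [Function.update_self, Function.update_self]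
        exact ⟨hs, hy1⟩
      · rw [Function.update_of_ne hji, Function.update_of_ne hji]
        exact h1 j (by omega)
    · have hU2 : UB (Function.update x i y) (Function.update r i s) (i + 1) ⊆
          UB x r i ∪ (closedBall y (8 * s) ∩ (UB x r i)ᶜ) := by
        intro z hz
        by_cases hzU : z ∈ UB x r i
        · exact Or.inl hzU
        · right
          refine ⟨?_, hzU⟩
          rw [← hU i le_rfl] at hzU
          unfold UB at hz hzU
          rw [Finset.range_add_one] at hz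
          simp only [Finset.mem_insert, iUnion_iUnion_eq_or_left, mem_union] at hz
          rcases hz with hz | hz
          · simpa using hz
          · exact absurd hz hzU
      calc m (UB (Function.update x i y) (Function.update r i s) (i + 1))
          ≤ m (UB x r i) + m (closedBall y (8 * s) ∩ (UB x r i)ᶜ) :=
            (measure_mono hU2).trans (measure_union_le _ _)
        _ ≤ i * N * c0 + N * c0 := by gcongr
        _ = (i + 1 : ℕ) * N * c0 := by push_cast; ring

end Pool.Agent.W749.ST
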