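import Mathlib
import Pool.Agent.W749.ST.Energy
import Pool.Agent.W749.ST.Bdry
import Pool.Agent.W749.ST.Cut
import Pool.Agent.W749.ST.Greedy
set_option autoImplicit false
open Set Filter Topology MeasureTheory Metric
open scoped ENNReal Manifold ContDiff

namespace Pool.Agent.W749.ST
open Pool.Agent.W545.Man

variable {d : ℕ} {Ω : Type*} [TopologicalSpace Ω] [ChartedSpace (EuclideanHalfSpace (d + 1)) Ω]
  [IsManifold (𝓡∂ (d + 1)) ∞ Ω] [T2Space Ω] {c : Ω} (χ : SmoothBumpFunction (𝓡∂ (d + 1)) c)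

/-- the function `T` of the coordinates, cut off by `χ` -/
noncomputable def fn (T : EE d → ℝ) (x : Ω) : ℝ := χ x * T (ph d c x)

theorem fn_smooth {T : EE d → ℝ} (hT : ContDiff ℝ ∞ T) :
    ContMDiff (𝓡∂ (d + 1)) 𝓘(ℝ, ℝ) ∞ (fn χ T) := by
  have h1 : ContMDiffOn (𝓡∂ (d + 1)) 𝓘(ℝ, ℝ) ∞ (fun x => T (ph d c x))
      (chartAt (EuclideanHalfSpace (d + 1)) c).source :=
    hT.contMDiff.comp_contMDiffOn (contMDiffOn_extChartAt (x := c))
  exact χ.contMDiff_smul h1

/-- bundled version -/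
noncomputable def fnC {T : EE d → ℝ} (hT : ContDiff ℝ ∞ T) : C^∞⟮𝓡∂ (d + 1), Ω; 𝓘(ℝ, ℝ), ℝ⟯ :=
  ⟨fn χ T, fn_smooth χ hT⟩

/-- the large coordinate ball -/
def KR {c : Ω} (χ : SmoothBumpFunction (𝓡∂ (d + 1)) c) : Set (EE d) :=
  closedBall (extChartAt (𝓡∂ (d + 1)) c c) χ.rOut ∩ range (𝓡∂ (d + 1))

/-- the small coordinate ball -/
def KI {c : Ω} (χ : SmoothBumpFunction (𝓡∂ (d + 1)) c) : Set (EE d) :=
  closedBall (extChartAt (𝓡∂ (d + 1)) c c) χ.rIn ∩ range (𝓡∂ (d + 1))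

omit [IsManifold (𝓡∂ (d + 1)) ∞ Ω] [T2Space Ω] in
theorem KR_compact : IsCompact (KR χ) :=
  (isCompact_closedBall _ _).inter_right (𝓡∂ (d + 1)).isClosed_range

omit [IsManifold (𝓡∂ (d + 1)) ∞ Ω] [T2Space Ω] in
theorem KI_compact : IsCompact (KI χ) :=
  (isCompact_closedBall _ _).inter_right (𝓡∂ (d + 1)).isClosed_range

omit [IsManifold (𝓡∂ (d + 1)) ∞ Ω] [T2Space Ω] in
theorem KR_target : KR χ ⊆ (ph d c).target := χ.closedBall_subset

omit [IsManifold (𝓡∂ (d + 1)) ∞ Ω] [T2Space Ω] in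
theorem KI_KR : KI χ ⊆ KR χ :=
  inter_subset_inter_left _ (closedBall_subset_closedBall χ.rIn_lt_rOut.le)

omit [IsManifold (𝓡∂ (d + 1)) ∞ Ω] in
theorem fn_dif {T : EE d → ℝ} (x : Ω) (hx : ¬ (x ∈ (ph d c).source ∧ ph d c x ∈ KR χ)) :
    dif (d := d) (fn χ T) x = 0 := by
  have h1 : x ∉ tsupport χ := by
    intro h
    obtain ⟨y, hy, rfl⟩ := χ.tsupport_subset_symm_image_closedBall h
    apply hx
    have hyt : y ∈ (ph d c).target := χ.closedBall_subset hy
    refine ⟨(ph d c).map_target hyt, ?_⟩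
    have : ph d c ((ph d c).symm y) = y := (ph d c).right_inv hyt
    rw [this]
    exact hy
  have h2 : fn χ T =ᶠ[𝓝 x] fun _ => 0 := by
    filter_upwards [(isClosed_tsupport χ).isOpen_compl.mem_nhds h1] with z hz
    unfold fn
    rw [image_eq_zero_of_notMem_tsupport hz, zero_mul]
  unfold dif
  rw [h2.mfderiv_eq]
  exact mfderiv_const

theorem fn_Dloc {T : EE d → ℝ} (hT : ContDiff ℝ ∞ T) {y : EE d} (hy : y ∈ (ph d c).target) :
    ‖Dloc d c (fn χ T) y‖ ≤ ‖fderiv ℝ T y‖ + |T y| * ‖Dloc d c χ y‖ := by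
  have h1 := Dloc_has χ.contMDiff hy
  have h2 : HasFDerivWithinAt T (fderiv ℝ T y) (range (𝓡∂ (d + 1))) y :=
    ((hT.differentiable (by simp)) y).hasFDerivAt.hasFDerivWithinAt
  have h3 := h1.mul h2
  have e : ∀ z ∈ (ph d c).target, loc d c (fn χ T) z = loc d c χ z * T z := by
    intro z hz
    unfold loc fn
    have : ph d c ((ph d c).symm z) = z := (ph d c).right_inv hz
    rw [this]
  have h4 : HasFDerivWithinAt (loc d c (fn χ T))
      (loc d c χ y • fderiv ℝ T y + T y • Dloc d c χ y) (range (𝓡∂ (d + 1))) y := by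
    apply h3.congr_of_eventuallyEq
    · filter_upwards [target_nhds hy] with z hz
      exact e z hz
    · exact e y hy
  have h5 : Dloc d c (fn χ T) y = loc d c χ y • fderiv ℝ T y + T y • Dloc d c χ y :=
    h4.fderivWithin ((𝓡∂ (d + 1)).uniqueDiffOn _ (extChartAt_target_subset_range c hy))
  rw [h5]
  refine (norm_add_le _ _).trans ?_
  rw [norm_smul, norm_smul]
  have h6 : ‖loc d c χ y‖ ≤ 1 := by
    unfold loc
    rw [Real.norm_of_nonneg χ.nonneg]
    exact χ.le_one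
  have h7 : 0 ≤ ‖fderiv ℝ T y‖ := norm_nonneg _
  rw [Real.norm_eq_abs (T y)]
  nlinarith

theorem Dchi_bound : ∃ L : ℝ, 0 ≤ L ∧ ∀ y ∈ KR χ, ‖Dloc d c χ y‖ ≤ L := by
  have h1 : ContinuousOn (Dloc d c χ) (KR χ) := (Dloc_cont χ.contMDiff c).mono (KR_target χ)
  obtain ⟨L, hL⟩ := (KR_compact χ).exists_bound_of_continuousOn h1
  exact ⟨max L 0, le_max_right _ _, fun y hy => (hL y hy).trans (le_max_left _ _)⟩

/-- the bound for the gradients of the cutoffs -/
noncomputable def bb (C : ℝ) (X : ℕ → EE d) (r : ℕ → ℝ) (j : ℕ) (y : EE d) : ℝ≥0∞ :=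
  (closedBall (X j) (8 * r j)).indicator (fun _ => ENNReal.ofReal (C / r j)) y

theorem bb_meas (C : ℝ) (X : ℕ → EE d) (r : ℕ → ℝ) (j : ℕ) : Measurable (bb C X r j) :=
  measurable_const.indicator isClosed_closedBall.measurableSet

theorem bb_int {C : ℝ} (hC : 0 < C) (X : ℕ → EE d) (r : ℕ → ℝ) (j : ℕ) (hr : 0 < r j) :
    ∫⁻ y, bb C X r j y ^ ((d : ℝ) + 1) ≤
      ENNReal.ofReal ((8 * C) ^ (d + 1)) * volume (ball (0 : EE d) 1) := by
  have e : (fun y => bb C X r j y ^ ((d : ℝ) + 1)) =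
      (closedBall (X j) (8 * r j)).indicator fun _ => ENNReal.ofReal ((C / r j) ^ (d + 1)) := by
    funext y
    unfold bb
    by_cases hy : y ∈ closedBall (X j) (8 * r j)
    · rw [indicator_of_mem hy, indicator_of_mem hy,
        show (d : ℝ) + 1 = ((d + 1 : ℕ) : ℝ) by push_cast; ring, ENNReal.rpow_natCast,
        ENNReal.ofReal_pow (by positivity)]
    · rw [indicator_of_notMem hy, indicator_of_notMem hy, ENNReal.zero_rpow_of_pos (by positivity)]
  rw [e, lintegral_indicator isClosed_closedBall.measurableSet, setLIntegral_const,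
    Measure.addHaar_closedBall _ _ (by positivity), finrank_euclideanSpace_fin, ← mul_assoc,
    ← ENNReal.ofReal_mul (by positivity)]
  apply le_of_eq
  congr 2
  rw [div_pow, mul_pow, mul_pow]
  field_simp

theorem J_bound {C : ℝ} (hC : 0 < C) {KK : Set (EE d)} (hKK : IsCompact KK) (L : ℝ) (K : ℕ) :
    ∃ J : ℝ≥0∞, J ≠ ⊤ ∧ ∀ (X : ℕ → EE d) (r : ℕ → ℝ), (∀ j < K, 0 < r j) →
      ∫⁻ y in KK, (ENNReal.ofReal L + ∑ j ∈ Finset.range K, bb C X r j y) ^ ((d : ℝ) + 1) ≤ J := by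
  set V : ℝ≥0∞ := ENNReal.ofReal ((8 * C) ^ (d + 1)) * volume (ball (0 : EE d) 1)
  have hV : V ≠ ⊤ := ENNReal.mul_ne_top ENNReal.ofReal_ne_top measure_ball_lt_top.ne
  have hd0 : (0 : ℝ) ≤ d := Nat.cast_nonneg d
  refine ⟨2 ^ (((d : ℝ) + 1) - 1) * (ENNReal.ofReal L ^ ((d : ℝ) + 1) * volume KK +
    (K : ℝ≥0∞) ^ (((d : ℝ) + 1) - 1) * (K * V)), ?_, ?_⟩
  · apply ENNReal.mul_ne_top (ENNReal.rpow_ne_top_of_nonneg (by linarith) (by simp))
    apply ENNReal.add_ne_top.2 ⟨ENNReal.mul_ne_top (ENNReal.rpow_ne_top_of_nonneg (by linarith)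
      ENNReal.ofReal_ne_top) hKK.measure_lt_top.ne, ?_⟩
    exact ENNReal.mul_ne_top (ENNReal.rpow_ne_top_of_nonneg (by linarith) (by simp))
      (ENNReal.mul_ne_top (by simp) hV)
  · intro X r hr
    calc ∫⁻ y in KK, (ENNReal.ofReal L + ∑ j ∈ Finset.range K, bb C X r j y) ^ ((d : ℝ) + 1)
        ≤ ∫⁻ y in KK, 2 ^ (((d : ℝ) + 1) - 1) * (ENNReal.ofReal L ^ ((d : ℝ) + 1) +
          (K : ℝ≥0∞) ^ (((d : ℝ) + 1) - 1) * ∑ j ∈ Finset.range K, bb C X r j y ^ ((d : ℝ) + 1)) := by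
          apply lintegral_mono
          intro y
          refine (ENNReal.rpow_add_le_mul_rpow_add_rpow _ _ (by linarith)).trans ?_
          dsimp only
          gcongr
          have := ENNReal.rpow_sum_le_const_mul_sum_rpow (Finset.range K) (fun j => bb C X r j y)
            (p := (d : ℝ) + 1) (by linarith)
          rwa [Finset.card_range] at this
      _ = 2 ^ (((d : ℝ) + 1) - 1) * (ENNReal.ofReal L ^ ((d : ℝ) + 1) * volume KK +
          (K : ℝ≥0∞) ^ (((d : ℝ) + 1) - 1) *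
          ∑ j ∈ Finset.range K, ∫⁻ y in KK, bb C X r j y ^ ((d : ℝ) + 1)) := by
          rw [lintegral_const_mul, lintegral_add_left measurable_const, setLIntegral_const,
            lintegral_const_mul, lintegral_finsetSum]
          · exact fun j _ => (bb_meas C X r j).pow_const _
          · exact Finset.measurable_sum _ fun j _ => (bb_meas C X r j).pow_const _
          · exact measurable_const.add ((Finset.measurable_sum _ fun j _ =>
              (bb_meas C X r j).pow_const _).const_mul _)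
      _ ≤ 2 ^ (((d : ℝ) + 1) - 1) * (ENNReal.ofReal L ^ ((d : ℝ) + 1) * volume KK +
          (K : ℝ≥0∞) ^ (((d : ℝ) + 1) - 1) * (K * V)) := by
          gcongr
          calc ∑ j ∈ Finset.range K, ∫⁻ y in KK, bb C X r j y ^ ((d : ℝ) + 1)
              ≤ ∑ j ∈ Finset.range K, V := by
                apply Finset.sum_le_sum
                intro j hj
                exact (setLIntegral_le_lintegral _ _).trans
                  (bb_int hC X r j (hr j (Finset.mem_range.1 hj)))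
            _ = K * V := by rw [Finset.sum_const, Finset.card_range, nsmul_eq_mul]

/-- the combination of the test functions -/
noncomputable def comb (X : ℕ → EE d) (r : ℕ → ℝ) {K : ℕ} (a : Fin K → ℝ) (y : EE d) : ℝ :=
  ∑ i : Fin K, a i * test X r i y

theorem comb_smooth (X : ℕ → EE d) (r : ℕ → ℝ) {K : ℕ} (a : Fin K → ℝ) :
    ContDiff ℝ ∞ (comb X r a) := by
  unfold comb
  exact ContDiff.sum fun i _ => contDiff_const.mul (test_smooth X r i)

theorem comb_bound (X : ℕ → EE d) (r : ℕ → ℝ) {K : ℕ} (a : Fin K → ℝ) {α : ℝ} 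
    (ha : ∀ i, |a i| ≤ α) (y : EE d) : |comb X r a y| ≤ K * α := by
  unfold comb
  calc |∑ i : Fin K, a i * test X r i y| ≤ ∑ i : Fin K, |a i * test X r i y| :=
        Finset.abs_sum_le_sum_abs _ _
    _ ≤ ∑ i : Fin K, α := by
        apply Finset.sum_le_sum
        intro i _
        rw [abs_mul, abs_of_nonneg (test_nonneg X r i y)]
        have h1 := test_le_one X r i y
        have h2 := test_nonneg X r i y
        have h3 := ha i
        have h4 := abs_nonneg (a i)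
        nlinarith
    _ = K * α := by rw [Finset.sum_const, Finset.card_univ, Fintype.card_fin, nsmul_eq_mul]

theorem comb_deriv {C : ℝ} (hC0 : 0 < C) (hC : ∀ (x : EE d) (r : ℝ), 0 < r → ∀ y,
      ‖fderiv ℝ (cut x r) y‖ ≤ (closedBall x (2 * r)).indicator (fun _ => C / r) y)
    (X : ℕ → EE d) (r : ℕ → ℝ) {K : ℕ} (a : Fin K → ℝ) {α : ℝ} (hα : 0 ≤ α)
    (ha : ∀ i, |a i| ≤ α) (hr : ∀ j < K, 0 < r j) (y : EE d) :
    ‖fderiv ℝ (comb X r a) y‖ ≤ K * α *
      ∑ j ∈ Finset.range K, (closedBall (X j) (8 * r j)).indicator (fun _ => C / r j) y := by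
  have hd : ∀ i : Fin K, DifferentiableAt ℝ (test X r i) y := fun i =>
    ((test_smooth X r i).differentiable (by simp)) y
  have h1 : fderiv ℝ (comb X r a) y = ∑ i : Fin K, a i • fderiv ℝ (test X r i) y := by
    have h2 : HasFDerivAt (comb X r a) (∑ i : Fin K, a i • fderiv ℝ (test X r i) y) y := by
      unfold comb
      exact HasFDerivAt.fun_sum fun i _ => ((hd i).hasFDerivAt.const_mul (a i))
    exact h2.fderiv
  set S := ∑ j ∈ Finset.range K, (closedBall (X j) (8 * r j)).indicator (fun _ => C / r j) y with hS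
  rw [h1]
  calc ‖∑ i : Fin K, a i • fderiv ℝ (test X r i) y‖
      ≤ ∑ i : Fin K, ‖a i • fderiv ℝ (test X r i) y‖ := norm_sum_le _ _
    _ ≤ ∑ i : Fin K, α * S := by
        apply Finset.sum_le_sum
        intro i _
        rw [norm_smul, Real.norm_eq_abs]
        gcongr
        · exact ha i
        · exact test_deriv hC0 hC i.2 hr y
    _ = K * α * S := by
        rw [Finset.sum_const, Finset.card_univ, Fintype.card_fin, nsmul_eq_mul, mul_assoc]

theorem comb_enorm {C : ℝ} (hC0 : 0 < C) (hC : ∀ (x : EE d) (r : ℝ), 0 < r → ∀ y,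
      ‖fderiv ℝ (cut x r) y‖ ≤ (closedBall x (2 * r)).indicator (fun _ => C / r) y)
    (X : ℕ → EE d) (r : ℕ → ℝ) {K : ℕ} (a : Fin K → ℝ) {α : ℝ} (hα : 0 ≤ α)
    (ha : ∀ i, |a i| ≤ α) (hr : ∀ j < K, 0 < r j) {L : ℝ} (hL0 : 0 ≤ L)
    (hL : ∀ y ∈ KR χ, ‖Dloc d c χ y‖ ≤ L) {y : EE d} (hy : y ∈ KR χ) :
    ‖Dloc d c (fn χ (comb X r a)) y‖ₑ ≤ ENNReal.ofReal (K * α) *
      (ENNReal.ofReal L + ∑ j ∈ Finset.range K, bb C X r j y) := by
  have h1 := fn_Dloc χ (comb_smooth X r a) (KR_target χ hy)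
  have h2 := comb_deriv hC0 hC X r a hα ha hr y
  have h3 := comb_bound X r a ha y
  have h4 := hL y hy
  have hS0 : ∀ j ∈ Finset.range K, 0 ≤ (closedBall (X j) (8 * r j)).indicator (fun _ => C / r j) y := by
    intro j hj
    have := hr j (Finset.mem_range.1 hj)
    apply indicator_nonneg
    intro _ _
    positivity
  have e : ∑ j ∈ Finset.range K, bb C X r j y = ENNReal.ofReal
      (∑ j ∈ Finset.range K, (closedBall (X j) (8 * r j)).indicator (fun _ => C / r j) y) := by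
    rw [ENNReal.ofReal_sum_of_nonneg hS0]
    apply Finset.sum_congr rfl
    intro j _
    unfold bb
    by_cases h : y ∈ closedBall (X j) (8 * r j)
    · rw [indicator_of_mem h, indicator_of_mem h]
    · rw [indicator_of_notMem h, indicator_of_notMem h, ENNReal.ofReal_zero]
  rw [e, ← ENNReal.ofReal_add hL0 (Finset.sum_nonneg hS0), ← ENNReal.ofReal_mul (by positivity),
    ← ofReal_norm]
  apply ENNReal.ofReal_le_ofReal
  set S := ∑ j ∈ Finset.range K, (closedBall (X j) (8 * r j)).indicator (fun _ => C / r j) y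
  have h5 : |comb X r a y| * ‖Dloc d c χ y‖ ≤ K * α * L := by
    gcongr
  nlinarith

end Pool.Agent.W749.ST
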