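import Mathlib
import Pool.Agent.W749.ST.Fn
set_option autoImplicit false
open Set Filter Topology MeasureTheory Metric
open scoped ENNReal Manifold ContDiff

namespace Pool.Agent.W749.ST
open Pool.Agent.W545.Man

/-- square of a sum of functions with disjoint supports -/
theorem sq_sum_disj {K : ℕ} (v : Fin K → ℝ) (h : ∀ i j, i ≠ j → v i * v j = 0) :
    (∑ i, v i) ^ 2 = ∑ i, v i ^ 2 := by
  rw [pow_two, Finset.sum_mul_sum]
  apply Finset.sum_congr rfl
  intro i _
  rw [Finset.sum_eq_single i]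
  · rw [pow_two]
  · intro j _ hj
    exact h i j (Ne.symm hj)
  · intro hi
    exact absurd (Finset.mem_univ i) hi

variable {d : ℕ} {Ω : Type*} [TopologicalSpace Ω] [ChartedSpace (EuclideanHalfSpace (d + 1)) Ω]
  [IsManifold (𝓡∂ (d + 1)) ∞ Ω] [T2Space Ω] {c : Ω} (χ : SmoothBumpFunction (𝓡∂ (d + 1)) c)

theorem fnC_sum (X : ℕ → EE d) (r : ℕ → ℝ) {K : ℕ} (a : Fin K → ℝ) (x : Ω) :
    (∑ i : Fin K, a i • fnC χ (test_smooth X r i) : C^∞⟮𝓡∂ (d + 1), Ω; 𝓘(ℝ, ℝ), ℝ⟯) x =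
      fn χ (comb X r a) x := by
  have h1 : (∑ i : Fin K, a i • fnC χ (test_smooth X r i) :
      C^∞⟮𝓡∂ (d + 1), Ω; 𝓘(ℝ, ℝ), ℝ⟯) x =
      ∑ i : Fin K, (a i • fnC χ (test_smooth X r i) : C^∞⟮𝓡∂ (d + 1), Ω; 𝓘(ℝ, ℝ), ℝ⟯) x :=
    map_sum (ContMDiffMap.evalRingHom x) _ _
  rw [h1]
  unfold fn comb
  rw [Finset.mul_sum]
  apply Finset.sum_congr rfl
  intro i _
  show a i * (χ x * test X r i (ph d c x)) = _
  ring

theorem fn_disj {X : ℕ → EE d} {r : ℕ → ℝ} {K : ℕ} (hr : ∀ j < K, 0 < r j) (i j : Fin K)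
    (hij : i ≠ j) (x : Ω) : fn χ (test X r i) x * fn χ (test X r j) x = 0 := by
  unfold fn
  have h : test X r i (ph d c x) * test X r j (ph d c x) = 0 := by
    rcases lt_or_gt_of_ne hij with h | h
    · rw [mul_comm]
      exact test_disj (i := j) (j := i) h (fun l hl => hr l (lt_of_le_of_lt hl j.2)) _
    · exact test_disj (i := i) (j := j) h (fun l hl => hr l (lt_of_le_of_lt hl i.2)) _
  calc χ x * test X r i (ph d c x) * (χ x * test X r j (ph d c x)) =
      χ x * χ x * (test X r i (ph d c x) * test X r j (ph d c x)) := by ring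
    _ = 0 := by rw [h, mul_zero]

variable [MeasurableSpace Ω] [BorelSpace Ω]

theorem bsq_comb {ν : Measure Ω} {X : ℕ → EE d} {r : ℕ → ℝ} {K : ℕ} (hr : ∀ j < K, 0 < r j)
    {c0 : ℝ≥0∞} (h : ∀ i : Fin K, c0 ≤ bsq ν (fn χ (test X r i))) (a : Fin K → ℝ) :
    ENNReal.ofReal (∑ i, a i ^ 2) * c0 ≤ bsq ν (fn χ (comb X r a)) := by
  have e : ∀ x, fn χ (comb X r a) x ^ 2 = ∑ i, (a i * fn χ (test X r i) x) ^ 2 := by
    intro x
    rw [← sq_sum_disj]
    · unfold fn comb
      rw [Finset.mul_sum]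
      congr 1
      apply Finset.sum_congr rfl
      intro i _
      ring
    · intro i j hij
      have := fn_disj χ (X := X) hr i j hij x
      calc a i * fn χ (test X r i) x * (a j * fn χ (test X r j) x) =
          a i * a j * (fn χ (test X r i) x * fn χ (test X r j) x) := by ring
        _ = 0 := by rw [this, mul_zero]
  unfold bsq at h ⊢
  have hm : ∀ i : Fin K, Measurable (fun x => ENNReal.ofReal (fn χ (test X r i) x ^ 2)) := fun i =>
    (((fn_smooth χ (test_smooth X r i)).continuous.measurable).pow_const 2).ennreal_ofReal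
  calc ENNReal.ofReal (∑ i, a i ^ 2) * c0 = ∑ i, ENNReal.ofReal (a i ^ 2) * c0 := by
        rw [ENNReal.ofReal_sum_of_nonneg (fun i _ => sq_nonneg _), Finset.sum_mul]
    _ ≤ ∑ i, ENNReal.ofReal (a i ^ 2) * ∫⁻ x, ENNReal.ofReal (fn χ (test X r i) x ^ 2) ∂ν := by
        gcongr with i
        exact h i
    _ = ∑ i, ∫⁻ x, ENNReal.ofReal (a i ^ 2) * ENNReal.ofReal (fn χ (test X r i) x ^ 2) ∂ν := by
        apply Finset.sum_congr rfl
        intro i _
        rw [lintegral_const_mul _ (hm i)]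
    _ = ∫⁻ x, ∑ i, ENNReal.ofReal (a i ^ 2) * ENNReal.ofReal (fn χ (test X r i) x ^ 2) ∂ν := by
        rw [lintegral_finsetSum]
        exact fun i _ => (hm i).const_mul _
    _ = ∫⁻ x, ENNReal.ofReal (fn χ (comb X r a) x ^ 2) ∂ν := by
        apply lintegral_congr
        intro x
        rw [e x, ENNReal.ofReal_sum_of_nonneg (fun i _ => sq_nonneg _)]
        apply Finset.sum_congr rfl
        intro i _
        rw [← ENNReal.ofReal_mul (sq_nonneg _), mul_pow]

theorem chart_bound' (hd : 1 ≤ d) (g : RMetric d Ω) (k : ℕ) : ∃ Q : ℝ≥0∞, Q ≠ ⊤ ∧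
    ∀ (f : PosFun d Ω) (μ ν : Measure Ω), IsVolume (conf g f) μ → IsBdryVolume (conf g f) ν →
      mF (conf g f) c (KI χ) univ ≠ 0 →
      sigma k (conf g f) μ ν ≤ μ univ ^ (((d : ℝ) - 1) / (d + 1)) * Q /
        mF (conf g f) c (KI χ) univ := by
  classical
  set K := k + 1 with hKdef
  have hd0 : (0 : ℝ) ≤ d := Nat.cast_nonneg d
  obtain ⟨N, hN0, hN⟩ := cover16 (FF d)
  obtain ⟨C, hC0, hC⟩ := cut_deriv (EE d)
  obtain ⟨L, hL0, hL⟩ := Dchi_bound χ
  obtain ⟨A, hA, hE⟩ := energy_bound' hd g c (KR_compact χ) (KR_target χ)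
  obtain ⟨J, hJ, hJb⟩ := J_bound hC0 (KR_compact χ) L K
  set p : ℝ := ((d : ℝ) - 1) / (d + 1) with hp
  set q : ℝ := 2 / ((d : ℝ) + 1) with hq
  have hq0 : 0 < q := by positivity
  have hKN : ((K : ℝ≥0∞) * N) ≠ 0 := by
    simp only [ne_eq, mul_eq_zero, Nat.cast_eq_zero, not_or]
    omega
  have hKNt : ((K : ℝ≥0∞) * N) ≠ ⊤ := ENNReal.mul_ne_top (by simp) (by simp)
  refine ⟨(A * J) ^ q * K ^ 2 * (K * N), ?_, ?_⟩
  · refine ENNReal.mul_ne_top (ENNReal.mul_ne_top (ENNReal.rpow_ne_top_of_nonneg hq0.le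
      (ENNReal.mul_ne_top hA hJ)) (by simp)) hKNt
  intro f μ ν hμ hν hm0
  have hKI : KI χ ⊆ (ph d c).target := (KI_KR χ).trans (KR_target χ)
  set m := mF (conf g f) c (KI χ) with hmdef
  have : IsFiniteMeasure m := mF_finite (conf g f) c (KI_compact χ) hKI
  have hmt : m univ ≠ ⊤ := measure_ne_top _ _
  set c0 : ℝ≥0∞ := m univ / (K * N) with hc0def
  have hc0 : 0 < c0 := ENNReal.div_pos hm0 hKNt
  have hc0t : c0 ≠ ⊤ := ENNReal.div_ne_top hmt hKN
  have hT : (K : ℝ≥0∞) * N * c0 ≤ m univ := ENNReal.mul_div_le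
  obtain ⟨R, hR0, hR⟩ := bdd_inj (KI_compact χ)
  obtain ⟨x, r, hxr, -⟩ := greedy m hR0 (mF_supp (conf g f) c (KI_compact χ) hKI hR)
    (mF_small (by omega) (conf g f) c (KI_compact χ) hKI) hN0 hN hc0 hT K le_rfl
  set X : ℕ → EE d := fun j => inj (x j) with hX
  have hr : ∀ j < K, 0 < r j := fun j hj => (hxr j hj).1
  -- boundary integrals of the test functions
  have hb1 : ∀ i : Fin K, c0 ≤ bsq ν (fn χ (test X r i)) := by
    intro i
    refine (hxr i i.2).2.trans ?_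
    have hUm : MeasurableSet (closedBall (x i) (r i) \ UB x r i) :=
      isClosed_closedBall.measurableSet.diff
        (Finset.measurableSet_biUnion _ fun l _ => isClosed_closedBall.measurableSet)
    apply bsq_lower hν c (KI_compact χ) hKI hUm
    intro z hz hzK hz0 hzt
    unfold fn
    have h1 : χ z = 1 := χ.one_of_dist_le (by rwa [← extChartAt_source (𝓡∂ (d + 1)) c]) hzK.1
    have h2 : test X r i (ph d c z) = 1 := by
      apply test_one (fun j hj => hr j (lt_of_le_of_lt hj i.2))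
      · rw [hX]
        exact (tail_ball hz0).2 hzt.1
      · intro j hj hcon
        apply hzt.2
        unfold UB
        simp only [mem_iUnion, exists_prop]
        exact ⟨j, Finset.mem_range.2 hj, (tail_ball hz0).1 hcon⟩
    rw [h1, h2, one_mul]
  have hb2 := bsq_comb χ (X := X) hr hb1
  -- energy of the combinations
  have he : ∀ a : Fin K → ℝ, energy (conf g f) μ (fn χ (comb X r a)) ≤
      μ univ ^ p * ((A * J) ^ q * K ^ 2) * ENNReal.ofReal (∑ i, a i ^ 2) := by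
    intro a
    set α2 : ℝ := ∑ i, a i ^ 2 with hα2
    have hα20 : 0 ≤ α2 := Finset.sum_nonneg fun i _ => sq_nonneg _
    have ha : ∀ i, |a i| ≤ √α2 := by
      intro i
      apply Real.abs_le_sqrt
      exact Finset.single_le_sum (f := fun i => a i ^ 2) (fun i _ => sq_nonneg _) (Finset.mem_univ i)
    set S : EE d → ℝ≥0∞ := fun y => ENNReal.ofReal L + ∑ j ∈ Finset.range K, bb C X r j y with hS
    have hSm : Measurable S :=
      measurable_const.add (Finset.measurable_sum _ fun j _ => bb_meas C X r j)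
    have h1 := hE f μ hμ (fn χ (comb X r a)) (fn_smooth χ (comb_smooth X r a))
      (fun z hz => fn_dif χ z hz) (fun y => ENNReal.ofReal (K * √α2) * S y) (hSm.const_mul _)
      (fun y hy => comb_enorm χ hC0 hC X r a (Real.sqrt_nonneg _) ha hr hL0 hL hy)
    refine h1.trans ?_
    have h2 : ∫⁻ y in KR χ, (ENNReal.ofReal (K * √α2) * S y) ^ ((d : ℝ) + 1) ≤
        ENNReal.ofReal (K * √α2) ^ ((d : ℝ) + 1) * J := by
      have e : ∀ y, (ENNReal.ofReal (K * √α2) * S y) ^ ((d : ℝ) + 1) =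
          ENNReal.ofReal (K * √α2) ^ ((d : ℝ) + 1) * S y ^ ((d : ℝ) + 1) := fun y =>
        ENNReal.mul_rpow_of_nonneg _ _ (by linarith)
      simp only [e]
      rw [lintegral_const_mul _ (hSm.pow_const _)]
      gcongr
      exact hJb X r hr
    have h3 : (A * (ENNReal.ofReal (K * √α2) ^ ((d : ℝ) + 1) * J)) ^ q =
        ((A * J) ^ q * K ^ 2) * ENNReal.ofReal α2 := by
      have e1 : A * (ENNReal.ofReal (K * √α2) ^ ((d : ℝ) + 1) * J) =
          (A * J) * ENNReal.ofReal (K * √α2) ^ ((d : ℝ) + 1) := by ring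
      rw [e1, ENNReal.mul_rpow_of_nonneg _ _ hq0.le, ← ENNReal.rpow_mul]
      have e2 : ((d : ℝ) + 1) * q = (2 : ℕ) := by
        rw [hq]
        push_cast
        field_simp
      rw [e2, ENNReal.rpow_natCast, mul_assoc]
      congr 1
      rw [← ENNReal.ofReal_pow (by positivity), mul_pow, Real.sq_sqrt hα20,
        ENNReal.ofReal_mul (by positivity), ENNReal.ofReal_pow (by positivity), ENNReal.ofReal_natCast]
    calc μ univ ^ p * (A * ∫⁻ y in KR χ, (ENNReal.ofReal (K * √α2) * S y) ^ ((d : ℝ) + 1)) ^ q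
        ≤ μ univ ^ p * (A * (ENNReal.ofReal (K * √α2) ^ ((d : ℝ) + 1) * J)) ^ q := by gcongr
      _ = μ univ ^ p * ((A * J) ^ q * K ^ 2) * ENNReal.ofReal α2 := by rw [h3]; ring
  -- the space of test functions
  set b : Fin K → C^∞⟮𝓡∂ (d + 1), Ω; 𝓘(ℝ, ℝ), ℝ⟯ := fun i => fnC χ (test_smooth X r i) with hb
  have hcoe : ∀ a : Fin K → ℝ, ((∑ i, a i • b i : C^∞⟮𝓡∂ (d + 1), Ω; 𝓘(ℝ, ℝ), ℝ⟯) : Ω → ℝ) =
      fn χ (comb X r a) := fun a => funext fun z => fnC_sum χ X r a z
  have hzero : ∀ a : Fin K → ℝ, bsq ν (fn χ (comb X r a)) = 0 → ∀ i, a i = 0 := by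
    intro a ha i
    have h1 := hb2 a
    rw [ha, nonpos_iff_eq_zero, mul_eq_zero] at h1
    rcases h1 with h1 | h1
    · rw [ENNReal.ofReal_eq_zero] at h1
      have h2 : a i ^ 2 ≤ ∑ i, a i ^ 2 :=
        Finset.single_le_sum (f := fun i => a i ^ 2) (fun i _ => sq_nonneg _) (Finset.mem_univ i)
      have h3 : a i ^ 2 ≤ 0 := h2.trans h1
      exact pow_eq_zero_iff (two_ne_zero) |>.1 (le_antisymm h3 (sq_nonneg _))
    · exact absurd h1 hc0.ne'
  have hbz : ∀ u : Ω → ℝ, (∀ z, u z = 0) → bsq ν u = 0 := by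
    intro u hu
    unfold bsq
    simp [hu]
  have hli : LinearIndependent ℝ b := by
    rw [Fintype.linearIndependent_iff]
    intro a ha
    apply hzero a
    rw [← hcoe, ha]
    exact hbz _ fun z => rfl
  set V : Submodule ℝ C^∞⟮𝓡∂ (d + 1), Ω; 𝓘(ℝ, ℝ), ℝ⟯ := Submodule.span ℝ (range b) with hV
  have hfin : Module.finrank ℝ V = k + 1 := by
    rw [hV, finrank_span_eq_card hli, Fintype.card_fin]
  have hmem : ∀ u ∈ V, ∃ a : Fin K → ℝ, (u : Ω → ℝ) = fn χ (comb X r a) ∧ (∑ i, a i • b i) = u := by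
    intro u hu
    obtain ⟨a, ha⟩ := Submodule.mem_span_range_iff_exists_fun ℝ |>.1 hu
    exact ⟨a, by rw [← hcoe, ha], ha⟩
  have hane : ∀ (u : C^∞⟮𝓡∂ (d + 1), Ω; 𝓘(ℝ, ℝ), ℝ⟯) (a : Fin K → ℝ), (∑ i, a i • b i) = u →
      u ≠ 0 → ∑ i, a i ^ 2 ≠ 0 := by
    intro u a hau hu hcon
    apply hu
    rw [← hau]
    apply Finset.sum_eq_zero
    intro i _
    have h1 : a i ^ 2 = 0 := (Finset.sum_eq_zero_iff_of_nonneg fun i _ => sq_nonneg _).1 hcon i
      (Finset.mem_univ i)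
    rw [pow_eq_zero_iff two_ne_zero |>.1 h1, zero_smul]
  have hnd : ∀ u ∈ V, u ≠ 0 → bsq ν u ≠ 0 := by
    intro u hu hu0 hcon
    obtain ⟨a, ha1, ha2⟩ := hmem u hu
    rw [ha1] at hcon
    have h1 := hzero a hcon
    apply hane u a ha2 hu0
    simp [h1]
  unfold sigma
  refine iInf_le_of_le V (iInf_le_of_le hfin (iInf_le_of_le hnd (iSup₂_le fun u hu =>
    iSup_le fun hu0 => ?_)))
  obtain ⟨a, ha1, ha2⟩ := hmem u hu
  have hα := hane u a ha2 hu0
  rw [ha1]
  set α2 : ℝ := ∑ i, a i ^ 2 with hα2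
  have hα20 : 0 < α2 := lt_of_le_of_ne (Finset.sum_nonneg fun i _ => sq_nonneg _) (Ne.symm hα)
  have hα3 : ENNReal.ofReal α2 ≠ 0 := by simpa using hα20
  calc energy (conf g f) μ (fn χ (comb X r a)) / bsq ν (fn χ (comb X r a))
      ≤ (μ univ ^ p * ((A * J) ^ q * K ^ 2) * ENNReal.ofReal α2) / (ENNReal.ofReal α2 * c0) :=
        ENNReal.div_le_div (he a) (hb2 a)
    _ = μ univ ^ p * ((A * J) ^ q * K ^ 2) / c0 := by
        rw [mul_comm (ENNReal.ofReal α2) c0,
          ENNReal.mul_div_mul_right _ _ hα3 ENNReal.ofReal_ne_top]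
    _ = μ univ ^ p * ((A * J) ^ q * K ^ 2 * (K * N)) / m univ := by
        rw [hc0def, ENNReal.div_eq_inv_mul, ENNReal.div_eq_inv_mul, ENNReal.div_eq_inv_mul,
          ENNReal.mul_inv (Or.inr hmt) (Or.inr hm0), inv_inv]
        ring

theorem mul_rpow_neg_le (a : ℝ≥0∞) {p : ℝ} (hp' : 0 ≤ p) : a ^ p * a ^ (-p) ≤ 1 := by
  rcases hp'.eq_or_lt with hp | hp
  · rw [← hp]
    simp
  by_cases h0 : a = 0
  · rw [h0, ENNReal.zero_rpow_of_pos hp, zero_mul]
    exact zero_le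
  by_cases ht : a = ⊤
  · rw [ht, ENNReal.top_rpow_of_neg (y := -p) (by linarith), mul_zero]
    exact zero_le
  rw [← ENNReal.rpow_add _ _ h0 ht, add_neg_cancel, ENNReal.rpow_zero]

/-- **finiteness of the conformal Steklov eigenvalues**, surfaces included -/
theorem confSup_ne_top' {d : ℕ} (hd : 1 ≤ d) {Ω : Type*} [TopologicalSpace Ω] [T2Space Ω]
    [CompactSpace Ω] [ChartedSpace (EuclideanHalfSpace (d + 1)) Ω] [IsManifold (𝓡∂ (d + 1)) ∞ Ω]
    [MeasurableSpace Ω] [BorelSpace Ω] (g : RMetric d Ω) (k : ℕ) : confSup k g ≠ ⊤ := by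
  classical
  let χ : ∀ c : Ω, SmoothBumpFunction (𝓡∂ (d + 1)) c := fun c => Classical.arbitrary _
  choose Q hQt hQ using fun c : Ω => chart_bound' (χ c) hd g k
  have hnhds : ∀ c : Ω, (ph d c).symm '' (KI (χ c)) ∈ 𝓝 c := by
    intro c
    have h1 : (ph d c).source ∩ ph d c ⁻¹' (ball (ph d c c) (χ c).rIn) ∈ 𝓝 c :=
      (isOpen_extChartAt_preimage c isOpen_ball).mem_nhds
        ⟨mem_chart_source _ c, mem_ball_self (χ c).rIn_pos⟩ |> fun h => by
          rwa [extChartAt_source]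
    filter_upwards [h1] with z hz
    refine ⟨ph d c z, ⟨ball_subset_closedBall hz.2, mem_range_self _⟩, ?_⟩
    exact (ph d c).left_inv hz.1
  obtain ⟨F, -, hF⟩ := isCompact_univ.elim_nhds_subcover _ fun c (_ : c ∈ univ) => hnhds c
  have hd' : (1 : ℝ) ≤ d := by exact_mod_cast hd
  set p : ℝ := ((d : ℝ) - 1) / (d + 1) with hp
  have hp0 : 0 ≤ p := div_nonneg (by linarith) (by linarith)
  have hpn : (1 - (d : ℝ)) / (d + 1) = -p := by rw [hp]; ring
  have hbound : confSup k g ≤ (F.card : ℝ≥0∞) * ∑ c ∈ F, Q c := by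
    unfold confSup
    refine iSup_le fun f => iSup₂_le fun μ ν => iSup₂_le fun hμ hν => ?_
    unfold nsigma
    by_cases hν0 : ν univ = 0
    · rw [hν0, mul_zero]
      exact zero_le
    -- a chart with a large part of the boundary
    have h1 : ν univ ≤ ∑ c ∈ F, mF (conf g f) c (KI (χ c)) univ := by
      calc ν univ ≤ ν (⋃ c ∈ F, (ph d c).symm '' (KI (χ c))) := measure_mono hF
        _ ≤ ∑ c ∈ F, ν ((ph d c).symm '' (KI (χ c))) := measure_biUnion_finset_le _ _
        _ ≤ ∑ c ∈ F, mF (conf g f) c (KI (χ c)) univ := by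
            gcongr with c
            exact mF_univ hν c (KI_compact _) ((KI_KR _).trans (KR_target _))
    have hFne : F.Nonempty := by
      rw [Finset.nonempty_iff_ne_empty]
      intro h
      rw [h, Finset.sum_empty] at h1
      exact hν0 (le_antisymm h1 zero_le)
    obtain ⟨c, hcF, hc⟩ := Finset.exists_max_image F
      (fun c => mF (conf g f) c (KI (χ c)) univ) hFne
    set mc := mF (conf g f) c (KI (χ c)) univ with hmc
    have h2 : ν univ ≤ F.card * mc := by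
      refine h1.trans ?_
      calc ∑ c ∈ F, mF (conf g f) c (KI (χ c)) univ ≤ ∑ c' ∈ F, mc :=
            Finset.sum_le_sum fun c' hc' => hc c' hc'
        _ = F.card * mc := by rw [Finset.sum_const, nsmul_eq_mul]
    have hmc0 : mc ≠ 0 := by
      intro h
      rw [h, mul_zero] at h2
      exact hν0 (le_antisymm h2 zero_le)
    have hmct : mc ≠ ⊤ := by
      have := mF_finite (conf g f) c (KI_compact (χ c)) ((KI_KR _).trans (KR_target _))
      exact measure_ne_top _ _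
    have h3 := hQ c f μ ν hμ hν hmc0
    rw [hpn]
    calc sigma k (conf g f) μ ν * μ univ ^ (-p) * ν univ
        ≤ (μ univ ^ p * Q c / mc) * μ univ ^ (-p) * (F.card * mc) := by gcongr
      _ = (μ univ ^ p * μ univ ^ (-p)) * (Q c * F.card) * (mc⁻¹ * mc) := by
          rw [ENNReal.div_eq_inv_mul]
          ring
      _ ≤ 1 * (Q c * F.card) * 1 := by
          gcongr
          · exact mul_rpow_neg_le _ hp0
          · exact (ENNReal.inv_mul_cancel hmc0 hmct).le
      _ = F.card * Q c := by ring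
      _ ≤ F.card * ∑ c ∈ F, Q c := by
          gcongr
          exact Finset.single_le_sum (f := Q) (fun _ _ => zero_le) hcF
  refine ne_top_of_le_ne_top ?_ hbound
  exact ENNReal.mul_ne_top (by simp) (ENNReal.sum_ne_top.2 fun c _ => hQt c)

/-- **finiteness of the conformal Steklov eigenvalues** -/
theorem confSup_ne_top {d : ℕ} (hd : 2 ≤ d) {Ω : Type*} [TopologicalSpace Ω] [T2Space Ω]
    [CompactSpace Ω] [ChartedSpace (EuclideanHalfSpace (d + 1)) Ω] [IsManifold (𝓡∂ (d + 1)) ∞ Ω]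
    [MeasurableSpace Ω] [BorelSpace Ω] (g : RMetric d Ω) (k : ℕ) : confSup k g ≠ ⊤ :=
  confSup_ne_top' (by omega) g k

end Pool.Agent.W749.ST
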