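import Mathlib
import Pool.Agent.W545.Man.Bdry
import Pool.Agent.W749.ST.Bdry
set_option autoImplicit false
open Set Filter Topology MeasureTheory Metric
open scoped ENNReal Manifold ContDiff

/-! Existence of the Riemannian volume measure and of the boundary measure. -/

namespace Pool.Agent.W749.ST
open Pool.Agent.W545.Man

section Abstract

variable {X ι : Type*} [MeasurableSpace X]

theorem glue (m : ι → Measure X) (s : ι → Set X) (hs : ∀ c, MeasurableSet (s c)) (F : Finset ι)
    (hF : ∀ x, ∃ c ∈ F, x ∈ s c) (hc : ∀ c, m c (s c)ᶜ = 0)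
    (hcomp : ∀ c c' A, MeasurableSet A → A ⊆ s c → A ⊆ s c' → m c A = m c' A) :
    ∃ μ : Measure X, ∀ c, μ.restrict (s c) = m c := by
  classical
  have hres : ∀ c c', (m c).restrict (s c') = (m c').restrict (s c) := by
    intro c c'
    ext A hA
    rw [Measure.restrict_apply hA, Measure.restrict_apply hA]
    have h1 : m c (A ∩ s c') = m c (A ∩ s c' ∩ s c) := by
      apply le_antisymm
      · calc m c (A ∩ s c') ≤ m c ((A ∩ s c' ∩ s c) ∪ (s c)ᶜ) := by
              apply measure_mono
              intro x hx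
              by_cases h : x ∈ s c
              · exact Or.inl ⟨hx, h⟩
              · exact Or.inr h
          _ ≤ m c (A ∩ s c' ∩ s c) + m c (s c)ᶜ := measure_union_le _ _
          _ = _ := by rw [hc, add_zero]
      · exact measure_mono inter_subset_left
    have h2 : m c' (A ∩ s c) = m c' (A ∩ s c' ∩ s c) := by
      apply le_antisymm
      · calc m c' (A ∩ s c) ≤ m c' ((A ∩ s c' ∩ s c) ∪ (s c')ᶜ) := by
              apply measure_mono
              intro x hx
              by_cases h : x ∈ s c'
              · exact Or.inl ⟨⟨hx.1, h⟩, hx.2⟩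
              · exact Or.inr h
          _ ≤ m c' (A ∩ s c' ∩ s c) + m c' (s c')ᶜ := measure_union_le _ _
          _ = _ := by rw [hc, add_zero]
      · exact measure_mono fun x hx => ⟨hx.1.1, hx.2⟩
    rw [h1, h2]
    exact hcomp c c' _ ((hA.inter (hs c')).inter (hs c)) inter_subset_right
      (fun x hx => hx.1.2)
  set N : X → ℝ≥0∞ := fun x => ∑ c' ∈ F, (s c').indicator 1 x with hN
  have hNm : Measurable N := Finset.measurable_sum _ fun c' _ => measurable_one.indicator (hs c')
  have hNtop : ∀ x, N x ≠ ⊤ := by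
    intro x
    apply (ENNReal.sum_lt_top.2 _).ne
    intro c' _
    by_cases h : x ∈ s c'
    · rw [indicator_of_mem h]; simp
    · rw [indicator_of_notMem h]; simp
  have hN0 : ∀ x, N x ≠ 0 := by
    intro x
    obtain ⟨c, hcF, hxc⟩ := hF x
    intro h
    have := (Finset.sum_eq_zero_iff.1 h) c hcF
    rw [indicator_of_mem hxc] at this
    simp at this
  refine ⟨∑ c' ∈ F, (m c').withDensity (fun x => (N x)⁻¹), fun c => ?_⟩
  ext A hA
  rw [Measure.restrict_apply hA, Measure.finsetSum_apply]
  have key : ∀ c' ∈ F, (m c').withDensity (fun x => (N x)⁻¹) (A ∩ s c) =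
      ∫⁻ x in A, (s c').indicator 1 x * (N x)⁻¹ ∂(m c) := by
    intro c' _
    rw [withDensity_apply _ (hA.inter (hs c)), ← Measure.restrict_restrict hA, hres c' c,
      Measure.restrict_restrict hA]
    have : (fun x => (s c').indicator 1 x * (N x)⁻¹) = (s c').indicator fun x => (N x)⁻¹ := by
      funext x
      by_cases h : x ∈ s c'
      · rw [indicator_of_mem h, indicator_of_mem h, Pi.one_apply, one_mul]
      · rw [indicator_of_notMem h, indicator_of_notMem h, zero_mul]
    rw [this, lintegral_indicator (hs c'), Measure.restrict_restrict (hs c'), inter_comm]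
  rw [Finset.sum_congr rfl key, ← lintegral_finsetSum]
  · have : (fun x => ∑ c' ∈ F, (s c').indicator 1 x * (N x)⁻¹) = fun _ => (1 : ℝ≥0∞) := by
      funext x
      rw [← Finset.sum_mul]
      exact ENNReal.mul_inv_cancel (hN0 x) (hNtop x)
    rw [this, setLIntegral_one]
  · intro c' _
    exact (measurable_one.indicator (hs c')).mul hNm.inv

variable {E : Type*} [NormedAddCommGroup E] [NormedSpace ℝ E] [FiniteDimensional ℝ E]
  [MeasurableSpace E] [BorelSpace E] (vol : Measure E) [vol.IsAddHaarMeasure]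

omit [NormedSpace ℝ E] [FiniteDimensional ℝ E] in
theorem meas_inter_preimage [TopologicalSpace X] [BorelSpace X] {T : Set E}
    (hT : MeasurableSet T) {p : E → X} (hp : ContinuousOn p T) {A : Set X} (hA : MeasurableSet A) :
    MeasurableSet (T ∩ p ⁻¹' A) := by
  have h1 : Measurable (T.domRestrict p) := (continuousOn_iff_continuous_domRestrict.1 hp).measurable
  have h2 := MeasurableSet.subtype_image hT (h1 hA)
  have e : T ∩ p ⁻¹' A = Subtype.val '' (T.domRestrict p ⁻¹' A) := by
    ext y
    constructor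
    · rintro ⟨h, h'⟩
      exact ⟨⟨y, h⟩, h', rfl⟩
    · rintro ⟨⟨z, hz⟩, h', rfl⟩
      exact ⟨hz, h'⟩
  rw [e]
  exact h2

/-- the measure in a chart -/
noncomputable def mch (T : Set E) (p : E → X) (w : E → ℝ≥0∞) : Measure X :=
  Measure.map p ((vol.restrict T).withDensity w)

omit [NormedSpace ℝ E] [FiniteDimensional ℝ E] [vol.IsAddHaarMeasure] in
theorem mch_ae [TopologicalSpace X] [BorelSpace X] {T : Set E} (hT : MeasurableSet T) {p : E → X}
    (hp : ContinuousOn p T) (w : E → ℝ≥0∞) :
    AEMeasurable p ((vol.restrict T).withDensity w) :=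
  (hp.aemeasurable hT).mono_ac (withDensity_absolutelyContinuous _ _)

theorem mch_apply [TopologicalSpace X] [BorelSpace X] {T : Set E} (hT : MeasurableSet T)
    {p : E → X} (hp : ContinuousOn p T) (w : E → ℝ≥0∞) {A : Set X} (hA : MeasurableSet A) :
    mch vol T p w A = ∫⁻ y in T ∩ p ⁻¹' A, w y ∂vol := by
  have hae := mch_ae vol hT hp w
  have hS := meas_inter_preimage hT hp hA
  rw [mch, Measure.map_apply_of_aemeasurable hae hA]
  have h1 : (vol.restrict T).withDensity w (p ⁻¹' A) =
      (vol.restrict T).withDensity w (T ∩ p ⁻¹' A) := by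
    apply le_antisymm
    · calc (vol.restrict T).withDensity w (p ⁻¹' A) ≤
            (vol.restrict T).withDensity w ((T ∩ p ⁻¹' A) ∪ Tᶜ) := by
            apply measure_mono
            intro y hy
            by_cases h : y ∈ T
            · exact Or.inl ⟨h, hy⟩
            · exact Or.inr h
        _ ≤ (vol.restrict T).withDensity w (T ∩ p ⁻¹' A) + (vol.restrict T).withDensity w Tᶜ :=
            measure_union_le _ _
        _ = _ := by
            have : (vol.restrict T).withDensity w Tᶜ = 0 := by
              apply withDensity_absolutelyContinuous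
              rw [Measure.restrict_apply hT.compl, compl_inter_self, measure_empty]
            rw [this, add_zero]
    · exact measure_mono inter_subset_right
  rw [h1, withDensity_apply _ hS, Measure.restrict_restrict hS]
  congr 2
  exact inter_eq_self_of_subset_left inter_subset_left

theorem abstract_exists [TopologicalSpace X] [BorelSpace X] (s : ι → Set X)
    (hs : ∀ c, MeasurableSet (s c)) (F : Finset ι) (hF : ∀ x, ∃ c ∈ F, x ∈ s c)
    (T : ι → Set E) (hT : ∀ c, MeasurableSet (T c)) (p : ι → E → X)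
    (hp : ∀ c, ContinuousOn (p c) (T c)) (q : ι → X → E) (w : ι → E → ℝ≥0∞)
    (φ' : ι → ι → E → E →L[ℝ] E)
    (h0 : ∀ c y, y ∈ T c → p c y ∈ s c)
    (h1 : ∀ c y, y ∈ T c → q c (p c y) = y)
    (h2 : ∀ c c' y, y ∈ T c → p c y ∈ s c' → q c' (p c y) ∈ T c' ∧ p c' (q c' (p c y)) = p c y)
    (h3 : ∀ c c' y, y ∈ T c → p c y ∈ s c' →
      HasFDerivWithinAt (fun y => q c' (p c y)) (φ' c c' y) (T c ∩ p c ⁻¹' s c') y)
    (h4 : ∀ c c' y, y ∈ T c → p c y ∈ s c' →
      w c y = ENNReal.ofReal |(φ' c c' y).det| * w c' (q c' (p c y))) :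
    ∃ μ : Measure X, ∀ c, μ.restrict (s c) = mch vol (T c) (p c) (w c) := by
  apply glue (fun c => mch vol (T c) (p c) (w c)) s hs F hF
  · intro c
    rw [mch_apply vol (hT c) (hp c) (w c) (hs c).compl]
    have : T c ∩ p c ⁻¹' (s c)ᶜ = ∅ := by
      ext y
      simp only [mem_inter_iff, mem_preimage, mem_compl_iff, mem_empty_iff_false, iff_false,
        not_and, not_not]
      exact h0 c y
    rw [this, setLIntegral_empty]
  · intro c c' A hA hAc hAc'
    have hS := meas_inter_preimage (hT c) (hp c) hA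
    rw [mch_apply vol (hT c) (hp c) (w c) hA, mch_apply vol (hT c') (hp c') (w c') hA]
    have himg : (fun y => q c' (p c y)) '' (T c ∩ p c ⁻¹' A) = T c' ∩ p c' ⁻¹' A := by
      ext z
      constructor
      · rintro ⟨y, ⟨hy, hyA⟩, rfl⟩
        obtain ⟨h5, h6⟩ := h2 c c' y hy (hAc' hyA)
        refine ⟨h5, ?_⟩
        show p c' (q c' (p c y)) ∈ A
        rw [h6]
        exact hyA
      · rintro ⟨hz, hzA⟩
        obtain ⟨h5, h6⟩ := h2 c' c z hz (hAc hzA)
        refine ⟨q c (p c' z), ⟨h5, ?_⟩, ?_⟩
        · show p c (q c (p c' z)) ∈ A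
          rw [h6]
          exact hzA
        · show q c' (p c (q c (p c' z))) = z
          rw [h6]
          exact h1 c' z hz
    have hinj : InjOn (fun y => q c' (p c y)) (T c ∩ p c ⁻¹' A) := by
      rintro y ⟨hy, hyA⟩ z ⟨hz, hzA⟩ hyz
      simp only at hyz
      have h5 := (h2 c c' y hy (hAc' hyA)).2
      have h6 := (h2 c c' z hz (hAc' hzA)).2
      rw [hyz, h6] at h5
      rw [← h1 c y hy, ← h5, h1 c z hz]
    rw [← himg, lintegral_image_eq_lintegral_abs_det_fderiv_mul vol hS
      (f' := φ' c c') (fun y hy => (h3 c c' y hy.1 (hAc' hy.2)).mono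
        (fun z hz => ⟨hz.1, hAc' hz.2⟩)) hinj]
    apply setLIntegral_congr_fun hS
    intro y hy
    exact h4 c c' y hy.1 (hAc' hy.2)

theorem mch_lint [TopologicalSpace X] [BorelSpace X] {T : Set E} (hT : MeasurableSet T)
    {p : E → X} (hp : ContinuousOn p T) {w : E → ℝ≥0∞} (hw : AEMeasurable w (vol.restrict T))
    {f : X → ℝ≥0∞} (hf : AEMeasurable f (mch vol T p w)) {h : E → ℝ≥0∞} (hh : Measurable h)
    (hfh : ∀ y ∈ T, f (p y) = h y) :
    ∫⁻ x, f x ∂(mch vol T p w) = ∫⁻ y in T, h y * w y ∂vol := by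
  rw [mch, lintegral_map' hf (mch_ae vol hT hp w)]
  have e1 : ∫⁻ y, f (p y) ∂((vol.restrict T).withDensity w) =
      ∫⁻ y, h y ∂((vol.restrict T).withDensity w) := by
    apply lintegral_congr_ae
    apply (withDensity_absolutelyContinuous (vol.restrict T) w).ae_le
    filter_upwards [ae_restrict_mem hT] with y hy
    exact hfh y hy
  rw [e1, lintegral_withDensity_eq_lintegral_mul₀ hw hh.aemeasurable]
  apply lintegral_congr
  intro y
  rw [Pi.mul_apply, mul_comm]

end Abstract

theorem det_gram {n : Type*} [Fintype n] [DecidableEq n]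
    (L : EuclideanSpace ℝ n →L[ℝ] EuclideanSpace ℝ n) (G G' : Matrix n n ℝ)
    (h : ∀ i j, G i j = ∑ k, ∑ l, (L (EuclideanSpace.single i 1)) k *
      (L (EuclideanSpace.single j 1)) l * G' k l) :
    √G.det = |L.det| * √G'.det := by
  set M : Matrix n n ℝ := LinearMap.toMatrix (EuclideanSpace.basisFun n ℝ).toBasis
    (EuclideanSpace.basisFun n ℝ).toBasis (L : EuclideanSpace ℝ n →ₗ[ℝ] EuclideanSpace ℝ n) with hM
  have hMe : ∀ k i, M k i = (L (EuclideanSpace.single i 1)) k := by
    intro k i
    rw [hM, LinearMap.toMatrix_apply]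
    simp
  have hG : G = M.transpose * G' * M := by
    ext i j
    rw [h, Matrix.mul_apply]
    simp only [Matrix.mul_apply, Matrix.transpose_apply, hMe, Finset.sum_mul]
    rw [Finset.sum_comm]
    refine Finset.sum_congr rfl fun l _ => Finset.sum_congr rfl fun k _ => ?_
    ring
  have hdet : L.det = M.det := by
    rw [hM, LinearMap.det_toMatrix]
  rw [hG, Matrix.det_mul, Matrix.det_mul, Matrix.det_transpose, hdet]
  have : M.det * G'.det * M.det = M.det ^ 2 * G'.det := by ring
  rw [this, Real.sqrt_mul (sq_nonneg _), Real.sqrt_sq_eq_abs]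

variable {d : ℕ} {Ω : Type*} [TopologicalSpace Ω] [ChartedSpace (EuclideanHalfSpace (d + 1)) Ω]
  [IsManifold (𝓡∂ (d + 1)) ∞ Ω]

/-- the derivative of the transition map -/
noncomputable abbrev TJ (d : ℕ) {Ω : Type*} [TopologicalSpace Ω]
    [ChartedSpace (EuclideanHalfSpace (d + 1)) Ω] [IsManifold (𝓡∂ (d + 1)) ∞ Ω]
    (c c' z : Ω) : EE d →L[ℝ] EE d := tangentCoordChange (𝓡∂ (d + 1)) c c' z

theorem coeff_change (g : RMetric d Ω) {c c' z : Ω} (hz : z ∈ (ph d c).source)
    (hz' : z ∈ (ph d c').source) (v w : EE d) :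
    coeff g.inner c z v w = coeff g.inner c' z (TJ d c c' z v) (TJ d c c' z w) := by
  rw [coeff_apply, coeff_apply]
  have e : ∀ v : EE d, tangentCoordChange (𝓡∂ (d + 1)) c' z z (TJ d c c' z v) =
      tangentCoordChange (𝓡∂ (d + 1)) c z z v := by
    intro v
    exact tangentCoordChange_comp ⟨⟨hz, hz'⟩, mem_extChartAt_source z⟩
  rw [e, e]

theorem sqrt_gram_change (g : RMetric d Ω) {c c' z : Ω} (hz : z ∈ (ph d c).source)
    (hz' : z ∈ (ph d c').source) :
    √(gram g c z).det = |(TJ d c c' z).det| * √(gram g c' z).det := by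
  apply det_gram
  intro i j
  rw [show gram g c z i j = coeff g.inner c z (EuclideanSpace.single i 1)
    (EuclideanSpace.single j 1) from rfl, coeff_change g hz hz', coeff_sum]

theorem hasF_trans {c c' : Ω} {y : EE d} (hy : y ∈ (ph d c).target)
    (hy' : (ph d c).symm y ∈ (ph d c').source) :
    HasFDerivWithinAt (fun y => ph d c' ((ph d c).symm y)) (TJ d c c' ((ph d c).symm y))
      (range (𝓡∂ (d + 1))) y := by
  have h := hasFDerivWithinAt_tangentCoordChange (I := 𝓡∂ (d + 1)) (x := c) (y := c')
    (z := (ph d c).symm y) ⟨(ph d c).map_target hy, hy'⟩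
  rw [(ph d c).right_inv hy] at h
  exact h

omit [IsManifold (𝓡∂ (d + 1)) ∞ Ω] in
theorem target_open_inj (c : Ω) : IsOpen {z : FF d | inj z ∈ (ph d c).target} := by
  rw [isOpen_iff_mem_nhds]
  intro z hz
  have h1 := extChartAt_target_mem_nhdsWithin_of_mem (I := 𝓡∂ (d + 1)) (x := c) hz
  rw [mem_nhdsWithin_iff_exists_mem_nhds_inter] at h1
  obtain ⟨u, hu, hut⟩ := h1
  have h2 : inj ⁻¹' u ∈ 𝓝 z := (inj_cont d).continuousAt.preimage_mem_nhds hu
  filter_upwards [h2] with w hw
  apply hut
  refine ⟨hw, ?_⟩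
  rw [range_modelWithCornersEuclideanHalfSpace]
  exact (inj_zero_coord w).ge

/-- the transition map of the boundary -/
noncomputable def TB (d : ℕ) {Ω : Type*} [TopologicalSpace Ω]
    [ChartedSpace (EuclideanHalfSpace (d + 1)) Ω] [IsManifold (𝓡∂ (d + 1)) ∞ Ω]
    (c c' z : Ω) : FF d →L[ℝ] FF d := ((tailL d).comp (TJ d c c' z)).comp (injL d)

theorem single_succ (i : Fin d) : (EuclideanSpace.single (Fin.succ i) 1 : EE d) =
    inj (EuclideanSpace.single i 1) := by
  ext k
  refine Fin.cases ?_ (fun j => ?_) k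
  · rw [inj_zero_coord]
    simp
  · show (EuclideanSpace.single (Fin.succ i) 1 : EE d) (Fin.succ j) =
      (EuclideanSpace.single i 1 : FF d) j
    simp

theorem sqrt_bgram_change (g : RMetric d Ω) {c c' z : Ω} (hz : z ∈ (ph d c).source)
    (hz' : z ∈ (ph d c').source) (h0 : ∀ v : FF d, (TJ d c c' z (inj v)) 0 = 0) :
    √(bgram g c z).det = |(TB d c c' z).det| * √(bgram g c' z).det := by
  apply det_gram
  intro i j
  rw [show bgram g c z i j = coeff g.inner c z (EuclideanSpace.single (Fin.succ i) 1)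
    (EuclideanSpace.single (Fin.succ j) 1) from rfl, coeff_change g hz hz', coeff_sum,
    Fin.sum_univ_succ]
  simp only [single_succ, h0, zero_mul, Finset.sum_const_zero, zero_add]
  refine Finset.sum_congr rfl fun k _ => ?_
  rw [Fin.sum_univ_succ, h0, mul_zero, zero_mul, zero_add]
  rfl

theorem coord_zero {c c' : Ω} {z : FF d} (hz : inj z ∈ (ph d c).target)
    (hz' : (ph d c).symm (inj z) ∈ (ph d c').source) : (ph d c' ((ph d c).symm (inj z))) 0 = 0 := by
  rw [← mem_bd_iff hz', mem_bd_iff ((ph d c).map_target hz), (ph d c).right_inv hz]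
  exact inj_zero_coord z

omit [IsManifold (𝓡∂ (d + 1)) ∞ Ω] in
theorem psymm_cont (c : Ω) : ContinuousOn (fun z : FF d => (ph d c).symm (inj z))
    {z : FF d | inj z ∈ (ph d c).target} :=
  (continuousOn_extChartAt_symm c).comp (inj_cont d).continuousOn fun _ h => h

theorem S_open (c c' : Ω) : IsOpen ({z : FF d | inj z ∈ (ph d c).target} ∩
    (fun z : FF d => (ph d c).symm (inj z)) ⁻¹' (ph d c').source) :=
  (psymm_cont c).isOpen_inter_preimage (target_open_inj c) (isOpen_extChartAt_source c')

theorem hasF_inj {c c' : Ω} {z : FF d} (hz : inj z ∈ (ph d c).target)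
    (hz' : (ph d c).symm (inj z) ∈ (ph d c').source) :
    HasFDerivAt (fun z : FF d => ph d c' ((ph d c).symm (inj z)))
      ((TJ d c c' ((ph d c).symm (inj z))).comp (injL d)) z := by
  have h1 := hasF_trans hz hz'
  have h2 : HasFDerivWithinAt (fun z : FF d => inj z) (injL d) univ z :=
    (injL d).hasFDerivAt.hasFDerivWithinAt
  have h3 := h1.comp z h2 (fun w _ => by
    rw [range_modelWithCornersEuclideanHalfSpace]
    exact (inj_zero_coord w).ge)
  exact h3.hasFDerivAt univ_mem

theorem TJ_zero {c c' : Ω} {z : FF d} (hz : inj z ∈ (ph d c).target)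
    (hz' : (ph d c).symm (inj z) ∈ (ph d c').source) (v : FF d) :
    (TJ d c c' ((ph d c).symm (inj z)) (inj v)) 0 = 0 := by
  have h1 := (EuclideanSpace.proj (𝕜 := ℝ) (0 : Fin (d + 1))).hasFDerivAt.comp z (hasF_inj hz hz')
  have h2 : HasFDerivAt (fun _ : FF d => (0 : ℝ)) (0 : FF d →L[ℝ] ℝ) z := hasFDerivAt_const _ _
  have h3 : (⇑(EuclideanSpace.proj (𝕜 := ℝ) (0 : Fin (d + 1))) ∘
      fun z : FF d => ph d c' ((ph d c).symm (inj z))) =ᶠ[𝓝 z] fun _ => (0 : ℝ) := by
    filter_upwards [(S_open c c').mem_nhds ⟨hz, hz'⟩] with w hw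
    exact coord_zero hw.1 hw.2
  have h4 := h1.unique (h2.congr_of_eventuallyEq h3)
  exact congrArg (fun L : FF d →L[ℝ] ℝ => L v) h4

variable [MeasurableSpace Ω] [BorelSpace Ω]

omit [IsManifold (𝓡∂ (d + 1)) ∞ Ω] [MeasurableSpace Ω] [BorelSpace Ω] in
theorem exists_cover [CompactSpace Ω] : ∃ F : Finset Ω, ∀ x : Ω, ∃ c ∈ F, x ∈ (ph d c).source := by
  obtain ⟨t, ht⟩ := isCompact_univ.elim_finite_subcover
    (fun c : Ω => (ph d c).source) (fun c => isOpen_extChartAt_source c)
    (fun x _ => mem_iUnion.2 ⟨x, mem_extChartAt_source x⟩)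
  refine ⟨t, fun x => ?_⟩
  obtain ⟨i, hi, hxi⟩ := mem_iUnion₂.1 (ht (mem_univ x))
  exact ⟨i, hi, hxi⟩

theorem exists_isVolume [CompactSpace Ω] (g : RMetric d Ω) : ∃ μ : Measure Ω, IsVolume g μ := by
  obtain ⟨F, hF⟩ := exists_cover (d := d) (Ω := Ω)
  obtain ⟨μ, hμ⟩ := abstract_exists (volume : Measure (EE d)) (fun c : Ω => (ph d c).source)
    (fun c => (isOpen_extChartAt_source c).measurableSet) F hF
    (fun c => (ph d c).target) (fun c => target_meas c) (fun c => (ph d c).symm)
    (fun c => continuousOn_extChartAt_symm c) (fun c => ph d c)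
    (fun c y => ENNReal.ofReal (√(gram g c ((ph d c).symm y)).det))
    (fun c c' y => TJ d c c' ((ph d c).symm y))
    (fun c y hy => (ph d c).map_target hy)
    (fun c y hy => (ph d c).right_inv hy)
    (fun c c' y hy hy' => ⟨(ph d c').map_source hy', (ph d c').left_inv hy'⟩)
    (fun c c' y hy hy' => (hasF_trans hy hy').mono
      (fun z hz => extChartAt_target_subset_range c hz.1))
    (fun c c' y hy hy' => by
      show ENNReal.ofReal _ = ENNReal.ofReal _ * ENNReal.ofReal (√(gram g c' ((ph d c').symm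
        (ph d c' ((ph d c).symm y)))).det)
      rw [(ph d c').left_inv hy', ← ENNReal.ofReal_mul (abs_nonneg _),
        sqrt_gram_change g ((ph d c).map_target hy) hy'])
  refine ⟨μ, fun c h hh => ?_⟩
  rw [← extChartAt_source (𝓡∂ (d + 1)) c]
  have hw : AEMeasurable (fun y => ENNReal.ofReal (√(gram g c ((ph d c).symm y)).det))
      (volume.restrict (ph d c).target) := by
    apply ENNReal.measurable_ofReal.comp_aemeasurable
    apply ContinuousOn.aemeasurable _ (target_meas c)
    apply ContinuousOn.sqrt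
    exact Continuous.comp_continuousOn (Continuous.matrix_det continuous_id) (gram_cont g c)
  have hq : AEMeasurable (fun x => h (ph d c x)) (μ.restrict (ph d c).source) :=
    hh.comp_aemeasurable ((continuousOn_extChartAt c).aemeasurable
      (isOpen_extChartAt_source c).measurableSet)
  rw [hμ c] at hq ⊢
  exact mch_lint volume (target_meas c) (continuousOn_extChartAt_symm c) hw hq hh
    (fun y hy => by rw [(ph d c).right_inv hy])

theorem exists_isBdryVolume [CompactSpace Ω] (g : RMetric d Ω) :
    ∃ ν : Measure Ω, IsBdryVolume g ν := by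
  obtain ⟨F, hF⟩ := exists_cover (d := d) (Ω := Ω)
  obtain ⟨μ, hμ⟩ := abstract_exists (volume : Measure (FF d)) (fun c : Ω => (ph d c).source)
    (fun c => (isOpen_extChartAt_source c).measurableSet) F hF
    (fun c => {z : FF d | inj z ∈ (ph d c).target}) (fun c => (target_open_inj c).measurableSet)
    (fun c z => (ph d c).symm (inj z)) (fun c => psymm_cont c) (fun c x => tailL d (ph d c x))
    (fun c z => ENNReal.ofReal (√(bgram g c ((ph d c).symm (inj z))).det))
    (fun c c' z => TB d c c' ((ph d c).symm (inj z)))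
    (fun c z hz => (ph d c).map_target hz)
    (fun c z hz => by
      show tailL d (ph d c ((ph d c).symm (inj z))) = z
      rw [(ph d c).right_inv hz]
      exact tail_inj z)
    (fun c c' z hz hz' => by
      show inj (tailL d (ph d c' ((ph d c).symm (inj z)))) ∈ (ph d c').target ∧
        (ph d c').symm (inj (tailL d (ph d c' ((ph d c).symm (inj z))))) = (ph d c).symm (inj z)
      rw [inj_tail (coord_zero hz hz')]
      exact ⟨(ph d c').map_source hz', (ph d c').left_inv hz'⟩)
    (fun c c' z hz hz' =>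
      (((tailL d).hasFDerivAt.comp z (hasF_inj hz hz')).hasFDerivWithinAt))
    (fun c c' z hz hz' => by
      show ENNReal.ofReal _ = ENNReal.ofReal _ * ENNReal.ofReal (√(bgram g c' ((ph d c').symm
        (inj (tailL d (ph d c' ((ph d c).symm (inj z))))))).det)
      rw [inj_tail (coord_zero hz hz'), (ph d c').left_inv hz', ← ENNReal.ofReal_mul (abs_nonneg _),
        sqrt_bgram_change g ((ph d c).map_target hz) hz' (TJ_zero hz hz')])
  refine ⟨μ, fun c h hh => ?_⟩
  rw [← extChartAt_source (𝓡∂ (d + 1)) c]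
  have hw : AEMeasurable (fun z => ENNReal.ofReal (√(bgram g c ((ph d c).symm (inj z))).det))
      (volume.restrict {z : FF d | inj z ∈ (ph d c).target}) := by
    apply ENNReal.measurable_ofReal.comp_aemeasurable
    apply ContinuousOn.aemeasurable _ (target_open_inj c).measurableSet
    apply ContinuousOn.sqrt
    refine Continuous.comp_continuousOn (g := fun A : Matrix (Fin (d + 1)) (Fin (d + 1)) ℝ =>
      (A.submatrix Fin.succ Fin.succ).det) ?_
      (f := fun z : FF d => gram g c ((ph d c).symm (inj z)))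
      ((gram_cont g c).comp (inj_cont d).continuousOn fun _ h => h)
    exact Continuous.matrix_det (Continuous.matrix_submatrix continuous_id _ _)
  have hq : AEMeasurable (fun x => h (ph d c x)) (μ.restrict (ph d c).source) :=
    hh.comp_aemeasurable ((continuousOn_extChartAt c).aemeasurable
      (isOpen_extChartAt_source c).measurableSet)
  rw [hμ c] at hq ⊢
  exact mch_lint volume (target_open_inj c).measurableSet (psymm_cont c) hw hq
    (h := fun z => h (inj z)) (hh.comp (inj_cont d).measurable)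
    (fun y hy => by rw [(ph d c).right_inv hy])

end Pool.Agent.W749.ST
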